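import Mathlib

/-!
Definitions for the radius of comparison problem (MP_c00d13_an): the crossed product C*-algebra of a
homeomorphism, Cuntz comparison, quasitraces, the radius of comparison, mean dimension.
-/

open scoped ENNReal NNReal
open Filter Topology

noncomputable section

namespace Pool.Agent.H27.RC

/-! ## Cuntz comparison and the radius of comparison of a unital C*-algebra -/

/-- The real power `b ^ y` of a positive element of a C*-algebra (functional calculus). -/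
def rpowC {B : Type} [CStarAlgebra B] [PartialOrder B] [StarOrderedRing B] (b : B) (y : ℝ) : B :=
  b ^ y

/-- Cuntz subequivalence `a ≾ b`: `a` is a limit of elements `v b v*`. -/
def CuntzLE {B : Type} [CStarAlgebra B] (a b : B) : Prop :=
  ∀ ε : ℝ, 0 < ε → ∃ v : B, ‖v * b * star v - a‖ < ε

section general

variable (A : Type) [CStarAlgebra A] [PartialOrder A] [StarOrderedRing A]

/-- The matrix algebra `M_n(A)` with its C*-algebra structure. -/
abbrev Mat (n : ℕ) := CStarMatrix (Fin n) (Fin n) A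

variable {A}

/-- `x ⊕ 0`, the embedding of `M_n(A)` into the upper left corner of `M_{n+1}(A)`. -/
def corner {n : ℕ} (x : Mat A n) : Mat A (n + 1) :=
  CStarMatrix.ofMatrix fun i j =>
    if hij : (i : ℕ) < n ∧ (j : ℕ) < n then x ⟨i, hij.1⟩ ⟨j, hij.2⟩ else 0

variable (A)

/-- A normalised 2-quasitrace on `A`, given together with its (unique) extension to all matrix
algebras `M_n(A)`: on each `M_n(A)` it satisfies `0 ≤ τ(x*x) = τ(xx*)`, `τ(a+ib) = τ(a) + iτ(b)`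
for self-adjoint `a`, `b`, and it is linear on commutative C*-subalgebras; `τ(1) = 1`. -/
structure QuasiTrace where
  toFun : (n : ℕ) → Mat A n → ℂ
  nonneg : ∀ (n : ℕ) (x : Mat A n), 0 ≤ (toFun n (star x * x)).re ∧ (toFun n (star x * x)).im = 0
  tracial : ∀ (n : ℕ) (x : Mat A n), toFun n (star x * x) = toFun n (x * star x)
  add_I : ∀ (n : ℕ) (a b : Mat A n), IsSelfAdjoint a → IsSelfAdjoint b →
    toFun n (a + Complex.I • b) = toFun n a + Complex.I * toFun n b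
  linear : ∀ (n : ℕ) (S : NonUnitalStarSubalgebra ℂ (Mat A n)), IsClosed (S : Set (Mat A n)) →
    (∀ x ∈ S, ∀ y ∈ S, x * y = y * x) → ∀ x ∈ S, ∀ y ∈ S, ∀ c : ℂ,
      toFun n (c • x + y) = c * toFun n x + toFun n y
  compat : ∀ (n : ℕ) (x : Mat A n), toFun (n + 1) (corner x) = toFun n x
  normalized : toFun 1 1 = 1

variable {A}

/-- The dimension function `d_τ(a) = lim_k τ(a^{1/k})` for a positive element `a` of `M_n(A)`. -/
def dimFn (τ : QuasiTrace A) {n : ℕ} (a : Mat A n) : ℝ :=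
  limUnder atTop (fun k : ℕ => (τ.toFun n (rpowC a (1 / (k : ℝ)))).re)

variable (A)

/-- The radius of comparison of `A`: the infimum of all `r ≥ 0` such that for all positive `a`, `b`
in some `M_n(A)`, `d_τ(a) + r < d_τ(b)` for every `τ ∈ QT(A)` implies `a ≾ b`. -/
def rc : ℝ≥0∞ :=
  sInf {r : ℝ≥0∞ | ∃ s : ℝ≥0, r = (s : ℝ≥0∞) ∧ ∀ (n : ℕ) (a b : Mat A n), 0 ≤ a → 0 ≤ b →
    (∀ τ : QuasiTrace A, dimFn τ a + (s : ℝ) < dimFn τ b) → CuntzLE a b}

end general

/-! ## The crossed product `C*(ℤ, X, h)` -/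

section crossed

/-- The Hilbert space `ℓ²(ℤ × X)`. -/
abbrev L2 (X : Type) := lp (fun _ : ℤ × X => ℂ) 2

variable {X : Type} [TopologicalSpace X]

/-- The generators of the crossed product in its regular representation on `ℓ²(ℤ × X)`: the
multiplication operators `(M_f ξ)(n, x) = f(hⁿx) ξ(n, x)`, `f ∈ C(X)`, and the unitary
`(u ξ)(n, x) = ξ(n - 1, x)`, which satisfies `u M_f u* = M_{f ∘ h⁻¹}`. -/
def crossedGen (h : X ≃ₜ X) : Set (L2 X →L[ℂ] L2 X) :=
  {a | (∃ f : C(X, ℂ), ∀ (ξ : L2 X) (n : ℤ) (x : X), a ξ (n, x) = f ((h ^ n) x) * ξ (n, x)) ∨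
    ∀ (ξ : L2 X) (n : ℤ) (x : X), a ξ (n, x) = ξ (n - 1, x)}

/-- The C*-algebra generated by these operators. -/
def crossedSub (h : X ≃ₜ X) : StarSubalgebra ℂ (L2 X →L[ℂ] L2 X) :=
  (StarAlgebra.adjoin ℂ (crossedGen h)).topologicalClosure

/-- The crossed product C*-algebra `C*(ℤ, X, h) = C(X) ⋊ ℤ` (the reduced crossed product, which is
the full one because `ℤ` is amenable). -/
def Crossed (h : X ≃ₜ X) : Type := crossedSub h

/-- The C*-algebra structure inherited from the bounded operators on `ℓ²(ℤ × X)`. -/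
@[irreducible] def crossedCStar (h : X ≃ₜ X) : CStarAlgebra (Crossed h) :=
  StarSubalgebra.cstarAlgebra (crossedSub h)
    (h_closed := StarSubalgebra.isClosed_topologicalClosure _)

instance (h : X ≃ₜ X) : CStarAlgebra (Crossed h) := crossedCStar h

instance (h : X ≃ₜ X) : PartialOrder (Crossed h) := CStarAlgebra.spectralOrder (Crossed h)

instance (h : X ≃ₜ X) : StarOrderedRing (Crossed h) := CStarAlgebra.spectralOrderedRing (Crossed h)

end crossed

/-! ## Mean dimension -/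

section mdim

variable {X : Type} [TopologicalSpace X]

/-- Finite open covers. -/
def IsFinOpenCover (𝒰 : Set (Set X)) : Prop :=
  𝒰.Finite ∧ (∀ U ∈ 𝒰, IsOpen U) ∧ ⋃₀ 𝒰 = Set.univ

/-- `𝒱` refines `𝒰`. -/
def Refines (𝒱 𝒰 : Set (Set X)) : Prop := ∀ V ∈ 𝒱, ∃ U ∈ 𝒰, V ⊆ U

/-- The order of `𝒱` is at most `d`: no point lies in more than `d + 1` members of `𝒱`. -/
def OrderLE (𝒱 : Set (Set X)) (d : ℕ) : Prop := ∀ x : X, {V ∈ 𝒱 | x ∈ V}.encard ≤ d + 1

/-- `D(𝒰)`, the least order of a finite open cover refining `𝒰`. -/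
def Dcov (𝒰 : Set (Set X)) : ℕ :=
  sInf {d : ℕ | ∃ 𝒱 : Set (Set X), IsFinOpenCover 𝒱 ∧ Refines 𝒱 𝒰 ∧ OrderLE 𝒱 d}

/-- The cover `𝒰 ∨ h⁻¹𝒰 ∨ ⋯ ∨ h^{-(n-1)}𝒰`. -/
def joinIter (h : X ≃ₜ X) (𝒰 : Set (Set X)) (n : ℕ) : Set (Set X) :=
  {W | ∃ U : Fin n → Set X, (∀ i, U i ∈ 𝒰) ∧ W = {x | ∀ i : Fin n, (h ^ (i : ℕ)) x ∈ U i}}

/-- The mean dimension `sup_𝒰 lim_n D(𝒰 ∨ ⋯ ∨ h^{-(n-1)}𝒰) / n`
(the limit exists by subadditivity). -/
def mdim (h : X ≃ₜ X) : ℝ≥0∞ :=
  ⨆ (𝒰 : Set (Set X)) (_ : IsFinOpenCover 𝒰),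
    liminf (fun n : ℕ => (Dcov (joinIter h 𝒰 n) : ℝ≥0∞) / (n : ℝ≥0∞)) atTop

end mdim

/-- A homeomorphism is minimal if every orbit `{kⁿ y : n ∈ ℤ}` is dense. -/
def IsMinimalHomeo {Y : Type} [TopologicalSpace Y] (k : Y ≃ₜ Y) : Prop :=
  ∀ y : Y, Dense (Set.range fun n : ℤ => (k ^ n) y)

/-- The main theorem. -/
def MainStmt : Prop :=
  ∀ (X : Type) [TopologicalSpace X] [CompactSpace X] [TopologicalSpace.MetrizableSpace X]
    (h : X ≃ₜ X)
    (Y : Type) [TopologicalSpace Y] [CompactSpace Y] [TopologicalSpace.MetrizableSpace Y]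
    [Infinite Y] (k : Y ≃ₜ Y) (g : X → Y),
    IsMinimalHomeo k → Continuous g → Function.Surjective g → (∀ x, g (h x) = k (g x)) →
    rc (Crossed h) ≤ mdim h / 2

end Pool.Agent.H27.RC
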