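import Mathlib
import Pool.Agent.H27.RC.Defs

/-!
Internal definitions for the project RC (MP_c00d13_an).
-/

open scoped ENNReal NNReal InnerProductSpace
open Filter Topology

noncomputable section

namespace Pool.Agent.H27.RC

/-- Continuous functional calculus of a self-adjoint element of a C*-algebra. -/
def cfcC {B : Type} [CStarAlgebra B] (f : ℝ → ℝ) (b : B) : B := cfc f b

/-- The operator on `ℓ²(ℤ × X)` underlying an element of the crossed product. -/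
def cop {X : Type} [TopologicalSpace X] {h : X ≃ₜ X} (a : Crossed h) : L2 X →L[ℂ] L2 X :=
  Subtype.val (p := fun a => a ∈ crossedSub h) a

section copLemmas

variable {X : Type} [TopologicalSpace X] {h : X ≃ₜ X}

unseal crossedCStar in
theorem cop_mul (a b : Crossed h) : cop (a * b) = cop a * cop b := rfl
unseal crossedCStar in
theorem cop_add (a b : Crossed h) : cop (a + b) = cop a + cop b := rfl
unseal crossedCStar in
theorem cop_sub (a b : Crossed h) : cop (a - b) = cop a - cop b := rfl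
unseal crossedCStar in
theorem cop_neg (a : Crossed h) : cop (-a) = -cop a := rfl
unseal crossedCStar in
theorem cop_zero : cop (0 : Crossed h) = 0 := rfl
unseal crossedCStar in
theorem cop_one : cop (1 : Crossed h) = 1 := rfl
unseal crossedCStar in
theorem cop_star (a : Crossed h) : cop (star a) = star (cop a) := rfl
unseal crossedCStar in
theorem cop_smul (c : ℂ) (a : Crossed h) : cop (c • a) = c • cop a := rfl
unseal crossedCStar in
theorem norm_cop (a : Crossed h) : ‖cop a‖ = ‖a‖ := rfl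
unseal crossedCStar in
theorem cop_algebraMap (c : ℂ) : cop (algebraMap ℂ (Crossed h) c) = algebraMap ℂ _ c := rfl

theorem cop_inj {a b : Crossed h} (hab : cop a = cop b) : a = b := Subtype.ext hab

theorem exists_cop_eq (T : L2 X →L[ℂ] L2 X) (hT : T ∈ crossedSub h) :
    ∃ a : Crossed h, cop a = T := ⟨⟨T, hT⟩, rfl⟩

theorem cop_mem (a : Crossed h) : cop a ∈ crossedSub h := a.2

/-- `cop` as a homomorphism. -/
def copHom (h : X ≃ₜ X) : Crossed h →⋆ₐ[ℂ] (L2 X →L[ℂ] L2 X) where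
  toFun := cop
  map_one' := cop_one
  map_mul' := cop_mul
  map_zero' := cop_zero
  map_add' := cop_add
  commutes' := cop_algebraMap
  map_star' := cop_star

@[simp] theorem copHom_apply (a : Crossed h) : copHom h a = cop a := rfl

end copLemmas

/-- The matrix entry `(i, j)` of `a` in the fibre over `x`. -/
def ent {X : Type} [TopologicalSpace X] {h : X ≃ₜ X} (a : Crossed h) (x : X) (i j : ℤ) : ℂ :=
  letI : DecidableEq X := Classical.decEq X
  cop a (lp.single 2 (j, x) (1 : ℂ)) (i, x)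

/-! ## Operators on `ℓ²(ℤ × Fin n)` -/

/-- `ℓ²(ℤ × Fin n)`, i.e. `ℓ²(ℤ; ℂⁿ)`. -/
abbrev Hil (n : ℕ) := lp (fun _ : ℤ × Fin n => ℂ) 2

/-- The basis vector at `p`. -/
def del {n : ℕ} (p : ℤ × Fin n) : Hil n := lp.single 2 p (1 : ℂ)

/-- The matrix entry of `T` in row `p` and column `q`. -/
def entry {n : ℕ} (T : Hil n →L[ℂ] Hil n) (p q : ℤ × Fin n) : ℂ := T (del q) p

section model

variable {X : Type} [TopologicalSpace X]

/-- The family `S x` (`x ∈ X`) is `∑_{|k| ≤ r} c_k u^k` with continuous `c_k : X → M_n(ℂ)`: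
`(S x)_{(i,e),(j,f)} = c_{i-j}(h^i x)_{e,f}` if `|i - j| ≤ r` and `0` otherwise. -/
def HasBand (h : X ≃ₜ X) {n : ℕ} (S : X → Hil n →L[ℂ] Hil n) (r : ℕ)
    (c : ℤ → X → Matrix (Fin n) (Fin n) ℂ) : Prop :=
  (∀ k, Continuous (c k)) ∧ ∀ (x : X) (p q : ℤ × Fin n),
    entry (S x) p q = if |p.1 - q.1| ≤ (r : ℤ) then c (p.1 - q.1) ((h ^ p.1) x) p.2 q.2 else 0

/-- A C*-algebra `𝒜` together with a jointly faithful family of representations on
`ℓ²(ℤ × Fin n)` which makes it a copy of `M_n(C*(ℤ, X, h))`. -/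
structure Model (h : X ≃ₜ X) (n : ℕ) (𝒜 : Type) [CStarAlgebra 𝒜] where
  /-- the representation at the point `x` -/
  fib : X → (𝒜 →⋆ₐ[ℂ] (Hil n →L[ℂ] Hil n))
  inj : ∀ T : 𝒜, (∀ x, fib x T = 0) → T = 0
  band : ∀ (r : ℕ) (c : ℤ → X → Matrix (Fin n) (Fin n) ℂ), (∀ k, Continuous (c k)) →
    ∃ T : 𝒜, HasBand h (fun x => fib x T) r c
  dense : ∀ (T : 𝒜) (η : ℝ), 0 < η → ∃ S : 𝒜, ‖T - S‖ ≤ η ∧
    ∃ (r : ℕ) (c : ℤ → X → Matrix (Fin n) (Fin n) ℂ), HasBand h (fun x => fib x S) r c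

/-- The (unnormalised) trace of the diagonal block of `T` at the time `0` over the point `x`. -/
def tr0 {h : X ≃ₜ X} {n : ℕ} {𝒜 : Type} [CStarAlgebra 𝒜] (M : Model h n 𝒜) (T : 𝒜) (x : X) : ℝ :=
  ∑ e : Fin n, (entry (M.fib x T) (0, e) (0, e)).re

/-- The trace of the diagonal block at time `0` as a continuous function on `X` (it is always
continuous, see module MB). -/
def trC {h : X ≃ₜ X} {n : ℕ} {𝒜 : Type} [CStarAlgebra 𝒜] (M : Model h n 𝒜) (T : 𝒜) : C(X, ℂ) :=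
  letI := Classical.propDecidable (Continuous fun x => ∑ e : Fin n, entry (M.fib x T) (0, e) (0, e))
  if hc : Continuous fun x => ∑ e : Fin n, entry (M.fib x T) (0, e) (0, e) then
    ⟨fun x => ∑ e : Fin n, entry (M.fib x T) (0, e) (0, e), hc⟩ else 0

/-- An invariant state of `C(X)`. -/
structure IsInvState (h : X ≃ₜ X) (Λ : C(X, ℂ) →ₗ[ℂ] ℂ) : Prop where
  nonneg : ∀ f : C(X, ℂ), (∀ x, 0 ≤ (f x).re ∧ (f x).im = 0) → 0 ≤ (Λ f).re ∧ (Λ f).im = 0
  one : Λ 1 = 1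
  inv : ∀ f : C(X, ℂ), Λ (f.comp (h : C(X, X))) = Λ f

/-- The dimension function of the trace `Λ ∘ tr0`. -/
def dLam {h : X ≃ₜ X} {n : ℕ} {𝒜 : Type} [CStarAlgebra 𝒜] [PartialOrder 𝒜] [StarOrderedRing 𝒜]
    (M : Model h n 𝒜) (Λ : C(X, ℂ) →ₗ[ℂ] ℂ) (a : 𝒜) : ℝ :=
  limUnder atTop (fun k : ℕ => (Λ (trC M (rpowC a (1 / (k : ℝ))))).re)

/-- `T` is the diagonal element given by the functions `φ · e`. -/
def IsDiag {h : X ≃ₜ X} {n : ℕ} {𝒜 : Type} [CStarAlgebra 𝒜] (M : Model h n 𝒜) (T : 𝒜)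
    (φ : X → Fin n → ℝ) : Prop :=
  ∀ (x : X) (p q : ℤ × Fin n),
    entry (M.fib x T) p q = if p = q then ((φ ((h ^ p.1) x) p.2 : ℝ) : ℂ) else 0

/-- `T` has band radius at most `r`. -/
def BandLE {h : X ≃ₜ X} {n : ℕ} {𝒜 : Type} [CStarAlgebra 𝒜] (M : Model h n 𝒜) (T : 𝒜)
    (r : ℕ) : Prop :=
  ∃ c : ℤ → X → Matrix (Fin n) (Fin n) ℂ, HasBand h (fun x => M.fib x T) r c

end model

/-! ## Windows -/

/-- `ℂ^{ℓ n}`. -/
abbrev EE (ℓ n : ℕ) := EuclideanSpace ℂ (Fin ℓ × Fin n)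

/-- Place a vector of `ℂ^{ℓ n}` in the window `[m, m + ℓ)`, keeping only the levels
`M ≤ i < ℓ - M`. -/
def place {ℓ n : ℕ} (M : ℕ) (m : ℤ) : EE ℓ n →L[ℂ] Hil n :=
  ∑ p ∈ Finset.univ.filter (fun p : Fin ℓ × Fin n => M ≤ (p.1 : ℕ) ∧ (p.1 : ℕ) + M < ℓ),
    (EuclideanSpace.proj p : EE ℓ n →L[ℂ] ℂ).smulRight (del (m + ((p.1 : ℕ) : ℤ), p.2))

/-- The compression of `T` to the levels `M ≤ i < ℓ - M` of the window `[0, ℓ)`, as an operator
on `ℂ^{ℓ n}`. -/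
def win {n : ℕ} (ℓ M : ℕ) (T : Hil n →L[ℂ] Hil n) : EE ℓ n →L[ℂ] EE ℓ n :=
  (ContinuousLinearMap.adjoint (place M 0)) ∘L T ∘L (place M 0)

/-- The projection of `ℂ^{ℓ n}` onto the levels `M ≤ i < ℓ - M`. -/
def lev (ℓ n M : ℕ) : EE ℓ n →L[ℂ] EE ℓ n :=
  (ContinuousLinearMap.adjoint (place M 0)) ∘L (place M 0)

/-- Real part of the trace. -/
def trE {ι : Type} [Fintype ι] [DecidableEq ι]
    (T : EuclideanSpace ℂ ι →L[ℂ] EuclideanSpace ℂ ι) : ℝ :=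
  ∑ p : ι, (T (EuclideanSpace.single p (1 : ℂ)) p).re

/-- The span of the eigenspaces of `A` for the real eigenvalues `≥ ε`. -/
def specAbove {E : Type} [NormedAddCommGroup E] [InnerProductSpace ℂ E]
    (A : E →L[ℂ] E) (ε : ℝ) : Submodule ℂ E :=
  ⨆ μ : {μ : ℝ // ε ≤ μ}, Module.End.eigenspace (A : E →ₗ[ℂ] E) ((μ : ℝ) : ℂ)

/-- `min 1 (max 0 t)`. -/
def clamp (t : ℝ) : ℝ := min 1 (max 0 t)

/-- the function `0` on `t ≤ ε/2`, `1` on `t ≥ ε`, linear in between. -/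
def gTwo (ε : ℝ) (t : ℝ) : ℝ := clamp (2 * t / ε - 1)

/-- `√((t - κ)_+)`. -/
def gOne (κ : ℝ) (t : ℝ) : ℝ := Real.sqrt (max 0 (t - κ))

/-- The marker property: for each `L` there is a continuous function `Φ : X → [0,1]` such that
along every orbit the times with `Φ > 0` have gaps `> L` and the times with `Φ = 1` are syndetic. -/
def Marker {X : Type} [TopologicalSpace X] (h : X ≃ₜ X) : Prop :=
  ∀ L : ℕ, ∃ (R : ℕ) (Φ : X → ℝ), Continuous Φ ∧ (∀ x, 0 ≤ Φ x ∧ Φ x ≤ 1) ∧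
    (∀ (x : X) (i : ℤ), i ≠ 0 → |i| ≤ (L : ℤ) → Φ x = 0 ∨ Φ ((h ^ i) x) = 0) ∧
    ∀ x : X, ∃ i : ℕ, i ≤ R ∧ Φ ((h ^ (i : ℤ)) x) = 1

/-- The uniform inequality between averages, see module Q3. -/
def AvgIneq {X : Type} [TopologicalSpace X] {h : X ≃ₜ X} {n : ℕ} {𝒜 : Type} [CStarAlgebra 𝒜]
    (M : Model h n 𝒜) (a b : 𝒜) (r ν : ℝ) (N₀ : ℕ) : Prop :=
  ∀ (x : X) (N : ℕ), N₀ ≤ N →
    (r + ν) * N + ∑ i ∈ Finset.range N, tr0 M a ((h ^ (i : ℤ)) x) ≤
      ∑ i ∈ Finset.range N, tr0 M b ((h ^ (i : ℤ)) x)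

end Pool.Agent.H27.RC
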