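import Mathlib
import Pool.Agent.H27.RC.Defs
import Pool.Agent.H27.RC.Defs2

/-!
Module statements for the project RC (MP_c00d13_an, radius of comparison). Each module proves
`theorem xxx : XxxStmt` (possibly assuming other `...Stmt`). Proofs: /team-store/RC_PLAN.md
-/

open scoped ENNReal NNReal InnerProductSpace ComplexOrder
open Filter Topology

noncomputable section

namespace Pool.Agent.H27.RC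

/-! ## Group R: the representation of the crossed product -/

/-- Module R1: the fibre representations of the crossed product. -/
def R1Stmt : Prop :=
  ∀ (X : Type) [TopologicalSpace X] [CompactSpace X] (h : X ≃ₜ X),
    -- the fibre representations
    (∃ ρ : X → (Crossed h →⋆ₐ[ℂ] (lp (fun _ : ℤ => ℂ) 2 →L[ℂ] lp (fun _ : ℤ => ℂ) 2)),
      ∀ (x : X) (a : Crossed h) (i j : ℤ), ρ x a (lp.single 2 j (1 : ℂ)) i = ent a x i j) ∧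
    -- joint faithfulness
    (∀ a : Crossed h, (∀ x i j, ent a x i j = 0) → a = 0) ∧
    -- the elements `f u^k`
    (∀ (f : C(X, ℂ)) (k : ℤ), ∃ a : Crossed h, ∀ x i j,
      ent a x i j = if i - j = k then f ((h ^ i) x) else 0) ∧
    -- density of the band elements
    (∀ (a : Crossed h) (η : ℝ), 0 < η → ∃ (b : Crossed h) (r : ℕ) (c : ℤ → C(X, ℂ)),
      ‖a - b‖ ≤ η ∧ ∀ x i j,
        ent b x i j = if |i - j| ≤ (r : ℤ) then c (i - j) ((h ^ i) x) else 0)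

/-- Module R2 (from R1): the model of `M_n(C*(ℤ, X, h))`. -/
def R2Stmt : Prop :=
  ∀ (X : Type) [TopologicalSpace X] [CompactSpace X] (h : X ≃ₜ X) (n : ℕ),
    ∃ M : Model h n (Mat (Crossed h) n), ∀ (T : Mat (Crossed h) n) (x : X) (p q : ℤ × Fin n),
      entry (M.fib x T) p q = ent (T p.2 q.2) x p.1 q.1

/-- Module MB: basic facts about models. -/
def MBStmt : Prop :=
  ∀ (X : Type) [TopologicalSpace X] [CompactSpace X] (h : X ≃ₜ X) (n : ℕ)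
    (𝒜 : Type) [CStarAlgebra 𝒜] [PartialOrder 𝒜] [StarOrderedRing 𝒜] (M : Model h n 𝒜),
    -- positivity can be tested in the fibres
    (∀ T : 𝒜, (∀ x, 0 ≤ M.fib x T) → 0 ≤ T) ∧
    -- positivity can be tested on finitely supported vectors
    (∀ T : 𝒜, (∀ (x : X) (v : (ℤ × Fin n) →₀ ℂ),
      0 ≤ ∑ p ∈ v.support, ∑ q ∈ v.support, (starRingEnd ℂ) (v p) * entry (M.fib x T) p q * v q) →
      0 ≤ T) ∧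
    -- covariance
    (∀ (T : 𝒜) (k : ℤ) (x : X) (p q : ℤ × Fin n),
      entry (M.fib ((h ^ k) x) T) p q = entry (M.fib x T) (p.1 + k, p.2) (q.1 + k, q.2)) ∧
    -- continuity
    (∀ (T : 𝒜) (p q : ℤ × Fin n), Continuous fun x => entry (M.fib x T) p q) ∧
    -- positive band approximants
    (∀ a : 𝒜, 0 ≤ a → ∀ η : ℝ, 0 < η → ∃ a₁ : 𝒜, 0 ≤ a₁ ∧ ‖a - a₁‖ ≤ η ∧ ∃ r, BandLE M a₁ r) ∧
    -- an element is determined by its entries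
    (∀ S T : 𝒜, (∀ x p q, entry (M.fib x S) p q = entry (M.fib x T) p q) → S = T)

/-! ## Group Q: Cuntz comparison and traces -/

/-- Module Q1. -/
def Q1Stmt : Prop :=
  ∀ (B : Type) [CStarAlgebra B] [PartialOrder B] [StarOrderedRing B] (a b s : B) (κ : ℝ),
    0 ≤ a → 0 ≤ b → 0 < κ → a ≤ star s * b * s + κ • (1 : B) →
    ∃ w : B, ‖w * b * star w - a‖ ≤ κ

/-- Module Q2 (from R1): an invariant state of `C(X)` gives a quasitrace (in fact a trace). -/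
def Q2Stmt : Prop :=
  ∀ (X : Type) [TopologicalSpace X] [CompactSpace X] (h : X ≃ₜ X) (Λ : C(X, ℂ) →ₗ[ℂ] ℂ),
    IsInvState h Λ →
    ∃ τ : QuasiTrace (Crossed h), ∀ (n : ℕ) (T : Mat (Crossed h) n) (F : C(X, ℂ)),
      (∀ x, F x = ∑ e : Fin n, ent (T e e) x 0 0) → τ.toFun n T = Λ F

/-- Module Q3 (from MB): the hypothesis on the dimension functions gives a uniform inequality
between averages along orbits. -/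
def Q3Stmt : Prop :=
  ∀ (X : Type) [TopologicalSpace X] [CompactSpace X] [Nonempty X] (h : X ≃ₜ X) (n : ℕ)
    (𝒜 : Type) [CStarAlgebra 𝒜] [PartialOrder 𝒜] [StarOrderedRing 𝒜] (M : Model h n 𝒜)
    (a b : 𝒜) (r : ℝ), 0 ≤ a → 0 ≤ b → 0 ≤ r →
    (∀ Λ : C(X, ℂ) →ₗ[ℂ] ℂ, IsInvState h Λ → dLam M Λ a + r < dLam M Λ b) →
    ∀ c : ℝ, 0 < c → ‖a‖ ≤ c → ‖b‖ ≤ c → ∀ κ : ℝ, 0 < κ →
    ∃ (m N₀ : ℕ) (ν : ℝ), 1 ≤ m ∧ 0 < ν ∧ ν ≤ 1 ∧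
      AvgIneq M (cfcC (fun t => clamp (t / κ)) ((c⁻¹ : ℝ) • a))
        (cfcC (fun t => clamp t ^ (1 / (m : ℝ))) ((c⁻¹ : ℝ) • b)) r ν N₀

/-! ## Group L: linear algebra, generic matrices -/

/-- Module LA: spectral subspaces in finite dimension. -/
def LAStmt : Prop :=
  (∀ (ι : Type) [Fintype ι] [DecidableEq ι]
    (A : EuclideanSpace ℂ ι →L[ℂ] EuclideanSpace ℂ ι), 0 ≤ A →
    ∀ (f : ℝ → ℝ) (ε : ℝ), Continuous f → 0 < ε →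
      ((∀ t, 0 ≤ t → 0 ≤ f t) → (∀ t, ε ≤ t → 1 ≤ f t) →
        (Module.finrank ℂ (specAbove A ε) : ℝ) ≤ trE (cfc f A)) ∧
      (∀ c : ℝ, 0 ≤ c → (∀ t, 0 ≤ t → f t ≤ 1) → (∀ t, 0 ≤ t → t < ε → f t ≤ c) →
        trE (cfc f A) ≤ (Module.finrank ℂ (specAbove A ε) : ℝ) + c * Fintype.card ι)) ∧
  (∀ (E : Type) [NormedAddCommGroup E] [InnerProductSpace ℂ E] [FiniteDimensional ℂ E]
    [CompleteSpace E] (A : E →L[ℂ] E), 0 ≤ A →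
    -- perturbation
    (∀ (B : E →L[ℂ] E) (ε ε' δ : ℝ), 0 ≤ B → 0 ≤ ε → ε < ε' → ‖A - B‖ ≤ δ →
      ∀ u ∈ specAbove A ε', ∃ w ∈ specAbove B ε, ‖u - w‖ ≤ δ / (ε' - ε) * ‖u‖ ∧ ‖w‖ ≤ ‖u‖ ∧
        ∀ v ∈ specAbove B ε, ⟪v, u - w⟫_ℂ = 0) ∧
    -- functional calculus
    (∀ (g : ℝ → ℝ) (ε : ℝ), 0 < ε → (∀ t, 0 ≤ t → t < ε → g t = 0) → Continuous g →
      ∀ u : E, cfc g A u ∈ specAbove A ε) ∧
    (∀ (g : ℝ → ℝ) (ε c : ℝ), Continuous g → 0 < c → (∀ t, 0 ≤ t → 0 ≤ g t) →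
      (∀ t, ε ≤ t → c ≤ g t) → ∀ (w : E), ∀ v ∈ specAbove A ε,
        c * ‖⟪v, w⟫_ℂ‖ ≤ ‖v‖ * ‖cfc g A w‖) ∧
    (∀ (ε : ℝ), ∀ ζ ∈ specAbove A ε, ε * ‖ζ‖ ^ 2 ≤ (⟪ζ, A ζ⟫_ℂ).re))

/-- Module VOL: a volume estimate gives one matrix which is good for many pairs of subspaces. -/
def VOLStmt : Prop :=
  ∀ (E₁ E₂ : Type) [NormedAddCommGroup E₁] [InnerProductSpace ℂ E₁] [FiniteDimensional ℂ E₁]
    [NormedAddCommGroup E₂] [InnerProductSpace ℂ E₂] [FiniteDimensional ℂ E₂]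
    (d : ℕ) (C K : ℝ), 0 < C → 0 < K →
    ∃ δ₀ : ℝ, 0 < δ₀ ∧ ∀ δ : ℝ, 0 < δ → δ ≤ δ₀ →
      ∀ S : Finset (Submodule ℂ E₁ × Submodule ℂ E₂),
        (∀ P ∈ S, 2 * Module.finrank ℂ P.1 + d < 2 * Module.finrank ℂ P.2) →
        (S.card : ℝ) * δ ^ d ≤ C →
        ∃ z : E₁ →L[ℂ] E₂, ‖z‖ ≤ 1 ∧ ∀ P ∈ S, ∀ u ∈ P.1, ∃ v ∈ P.2, ‖v‖ ≤ 1 ∧
          K * δ * ‖u‖ ≤ ‖⟪v, z u⟫_ℂ‖

/-- Module GEN (from VOL and LA): generic matrices for families over a set of simplices. -/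
def GENStmt : Prop :=
  ∀ (J ι : Type) [Fintype J] [DecidableEq J] [Fintype ι] (s d : ℕ)
    (A B : ι → (EuclideanSpace ℂ J →L[ℂ] EuclideanSpace ℂ J)),
    (∀ i, 0 ≤ A i) → (∀ i, 0 ≤ B i) → ∀ κ ε : ℝ, 0 < κ → 0 < ε → ∀ K : Set (ι → ℝ),
    (∀ p ∈ K, (∀ i, 0 ≤ p i) ∧ ∑ i, p i = 1 ∧ {i | p i ≠ 0}.ncard ≤ d + 1) →
    (∀ p ∈ K, 2 * (Module.finrank ℂ (specAbove (∑ i, p i • A i) (κ / 2)) + s) + d <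
      2 * Module.finrank ℂ (specAbove (∑ i, p i • B i) ε)) →
    ∃ (z₁ : EuclideanSpace ℂ J →L[ℂ] EuclideanSpace ℂ J)
      (z₀ : EuclideanSpace ℂ (Fin s) →L[ℂ] EuclideanSpace ℂ J) (c : ℝ), 0 < c ∧
      ∀ p ∈ K, ∀ u ∈ specAbove (∑ i, p i • A i) κ, ∀ w : EuclideanSpace ℂ (Fin s),
        c * (‖u‖ ^ 2 + ‖w‖ ^ 2) ≤ ‖cfc (gTwo ε) (∑ i, p i • B i) (z₁ u + z₀ w)‖ ^ 2

/-! ## Group W: windows -/

/-- Module SZ: a uniform Szegő type theorem. -/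
def SZStmt : Prop :=
  ∀ (X : Type) [TopologicalSpace X] [CompactSpace X] (h : X ≃ₜ X) (n : ℕ)
    (𝒜 : Type) [CStarAlgebra 𝒜] [PartialOrder 𝒜] [StarOrderedRing 𝒜] (M : Model h n 𝒜)
    (a : 𝒜), 0 ≤ a → ‖a‖ ≤ 1 → ∀ f : ℝ → ℝ, Continuous f → ∀ δ : ℝ, 0 < δ →
    ∃ η₀ : ℝ, 0 < η₀ ∧ ∀ a₁ : 𝒜, 0 ≤ a₁ → ‖a - a₁‖ ≤ η₀ → ∀ M₀ : ℕ, BandLE M a₁ M₀ →
      ∃ ℓ₀ : ℕ, ∀ ℓ : ℕ, ℓ₀ ≤ ℓ → ∀ (x : X) (A : EE ℓ n →L[ℂ] EE ℓ n), 0 ≤ A →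
        ‖A - win ℓ M₀ (M.fib x a₁)‖ ≤ η₀ →
        |trE (cfc f A) - ∑ i ∈ Finset.range ℓ, tr0 M (cfcC f a) ((h ^ (i : ℤ)) x)| ≤ δ * ℓ

/-- Module NV: mean dimension gives partitions of unity of small multiplicity. -/
def NVStmt : Prop :=
  ∀ (X : Type) [TopologicalSpace X] [CompactSpace X] [T2Space X] (h : X ≃ₜ X) (r : ℝ),
    0 ≤ r → mdim h < ENNReal.ofReal (2 * r) → ∀ 𝒰 : Set (Set X), IsFinOpenCover 𝒰 →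
    ∀ ℓ₀ : ℕ, ∃ ℓ : ℕ, ℓ₀ ≤ ℓ ∧ ∃ d : ℕ, (d : ℝ) ≤ 2 * r * ℓ ∧
      ∃ (ι : Type) (_ : Fintype ι) (pt : ι → X) (lam : ι → X → ℝ),
        (∀ i, Continuous (lam i)) ∧ (∀ i x, 0 ≤ lam i x) ∧ (∀ x, ∑ i, lam i x = 1) ∧
        (∀ x, {i | lam i x ≠ 0}.ncard ≤ d + 1) ∧
        ∀ i, ∃ W ∈ joinIter h 𝒰 ℓ, pt i ∈ W ∧ ∀ x, lam i x ≠ 0 → x ∈ W

/-- Module OSC: small oscillation of the windows of band elements. -/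
def OSCStmt : Prop :=
  ∀ (X : Type) [TopologicalSpace X] [CompactSpace X] (h : X ≃ₜ X) (n : ℕ)
    (𝒜 : Type) [CStarAlgebra 𝒜] (M : Model h n 𝒜) (a b : 𝒜) (M₀ : ℕ),
    BandLE M a M₀ → BandLE M b M₀ → ∀ η : ℝ, 0 < η →
    ∃ 𝒰 : Set (Set X), IsFinOpenCover 𝒰 ∧ ∀ (ℓ : ℕ), ∀ W ∈ joinIter h 𝒰 ℓ, ∀ x ∈ W, ∀ y ∈ W,
      ‖win ℓ M₀ (M.fib x a) - win ℓ M₀ (M.fib y a)‖ ≤ η ∧
      ‖win ℓ M₀ (M.fib x b) - win ℓ M₀ (M.fib y b)‖ ≤ η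

/-- Module WIN (from MB, LA, GEN, SZ, NV, OSC): the windows. -/
def WINStmt : Prop :=
  ∀ (X : Type) [TopologicalSpace X] [CompactSpace X] [T2Space X] (h : X ≃ₜ X) (n : ℕ)
    (𝒜 : Type) [CStarAlgebra 𝒜] [PartialOrder 𝒜] [StarOrderedRing 𝒜] (M : Model h n 𝒜)
    (a b : 𝒜), 0 ≤ a → ‖a‖ ≤ 1 → 0 ≤ b → ‖b‖ ≤ 1 →
    ∀ (r ν κ : ℝ) (m N₀ : ℕ), 0 ≤ r → 0 < ν → ν ≤ 1 → 0 < κ → 1 ≤ m →
    mdim h < ENNReal.ofReal (2 * r) →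
    AvgIneq M (cfcC (fun t => clamp (2 * t / κ)) a) (cfcC (fun t => clamp t ^ (1 / (m : ℝ))) b)
      r ν N₀ →
    ∃ ε : ℝ, 0 < ε ∧ ∀ η : ℝ, 0 < η → ∃ (a₁ b₁ : 𝒜) (M₀ : ℕ), 0 ≤ a₁ ∧ 0 ≤ b₁ ∧
      ‖a - a₁‖ ≤ η ∧ ‖b - b₁‖ ≤ η ∧ BandLE M a₁ M₀ ∧ BandLE M b₁ M₀ ∧
      ∀ ℓ₀ : ℕ, ∃ ℓ : ℕ, ℓ₀ ≤ ℓ ∧ ∃ s : ℕ, s ≤ ℓ ∧ ν * ℓ ≤ 16 * s ∧
        ∃ A B : X → (EE ℓ n →L[ℂ] EE ℓ n), Continuous A ∧ Continuous B ∧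
          (∀ x, 0 ≤ A x) ∧ (∀ x, 0 ≤ B x) ∧
          (∀ x, ‖A x - win ℓ M₀ (M.fib x a₁)‖ ≤ η) ∧
          (∀ x, ‖B x - win ℓ M₀ (M.fib x b₁)‖ ≤ η) ∧
          (∀ x, lev ℓ n M₀ * A x = A x) ∧ (∀ x, lev ℓ n M₀ * B x = B x) ∧
          ∃ (z₁ : EE ℓ n →L[ℂ] EE ℓ n) (z₀ : EuclideanSpace ℂ (Fin s) →L[ℂ] EE ℓ n) (c : ℝ),
            0 < c ∧ ∀ x, ∀ u ∈ specAbove (A x) κ, ∀ w : EuclideanSpace ℂ (Fin s),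
              c * (‖u‖ ^ 2 + ‖w‖ ^ 2) ≤ ‖cfc (gTwo ε) (B x) (z₁ u + z₀ w)‖ ^ 2

/-! ## Group D: dynamics -/

/-- Module MK: the marker property. -/
def MKStmt : Prop :=
  ∀ (X : Type) [TopologicalSpace X] (h : X ≃ₜ X) (Y : Type) [TopologicalSpace Y] [CompactSpace Y]
    [T2Space Y] [Infinite Y] (k : Y ≃ₜ Y) (g : X → Y),
    IsMinimalHomeo k → Continuous g → (∀ x, g (h x) = k (g x)) → Marker h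

/-- Module URP: a continuous Rokhlin tower with small remainder. -/
def URPStmt : Prop :=
  ∀ (X : Type) [TopologicalSpace X] [CompactSpace X] [T2Space X] (h : X ≃ₜ X), Marker h →
    ∀ (ℓ : ℕ) (ε : ℝ), 1 ≤ ℓ → 0 < ε →
    ∃ β : X → ℝ, Continuous β ∧ (∀ x, 0 ≤ β x ∧ β x ≤ 1) ∧
      (∀ (x : X) (i : ℤ), i ≠ 0 → |i| < (ℓ : ℤ) → β x = 0 ∨ β ((h ^ i) x) = 0) ∧
      ∃ N₁ : ℕ, ∀ N : ℕ, N₁ ≤ N → ∀ x : X,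
        (({u : ℕ | u < N ∧ ¬ ∃ i : ℕ, i < ℓ ∧ β ((h ^ ((u : ℤ) - i)) x) = 1}.ncard : ℕ) : ℝ) ≤
          ε * N

/-- Module COMB: a totally nonsingular band matrix. -/
def COMBStmt : Prop :=
  ∀ K R : ℕ, ∃ (c : ℕ → ℝ) (γ : ℝ), 0 < γ ∧ ∀ U W : Finset ℤ,
    (∀ u ∈ U, ∀ v ∈ U, u ≤ v → (∀ a : ℤ, u ≤ a → a < v → ∃ w ∈ U, a < w ∧ w ≤ a + K) →
      v - u ≤ R) →
    (∀ a b : ℤ, a ≤ b → (U ∩ Finset.Icc a b).card ≤ (W ∩ Finset.Icc a (b + K)).card) →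
    ∀ ξ : ℤ → ℂ, γ * ∑ u ∈ U, ‖ξ u‖ ^ 2 ≤
      ∑ v ∈ W, ‖∑ u ∈ U.filter (fun u => u ≤ v ∧ v ≤ u + K), (c (v - u).toNat : ℂ) * ξ u‖ ^ 2

/-- Module COS (from MB and COMB): comparison of open sets with small upper density. -/
def COSStmt : Prop :=
  ∀ (X : Type) [TopologicalSpace X] [CompactSpace X] [T2Space X] (h : X ≃ₜ X), Marker h →
    ∀ (n : ℕ) (𝒜 : Type) [CStarAlgebra 𝒜] [PartialOrder 𝒜] [StarOrderedRing 𝒜]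
    (M : Model h n 𝒜), 0 < n → ∀ (f : X → ℝ) (ω : Fin (2 * n) → X → ℝ),
    Continuous f → (∀ x, 0 ≤ f x ∧ f x ≤ 1) → (∀ j, Continuous (ω j)) →
    (∀ j x, 0 ≤ ω j x ∧ ω j x ≤ 1) → (∀ i j x, i ≠ j → ω i x = 0 ∨ ω j x = 0) →
    (∃ N₂ : ℕ, ∀ N : ℕ, N₂ ≤ N → ∀ (x : X) (j : Fin (2 * n)),
      {u : ℕ | u < N ∧ f ((h ^ (u : ℤ)) x) ≠ 0}.ncard ≤
        {u : ℕ | u < N ∧ ω j ((h ^ (u : ℤ)) x) = 1}.ncard) →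
    ∀ κ : ℝ, 0 < κ → ∃ (t : 𝒜) (C : ℝ), 0 ≤ C ∧ ∀ Df Dω : 𝒜,
      IsDiag M Df (fun x _ => f x) →
      IsDiag M Dω (fun x e => if (e : ℕ) = 0 then ∑ j, ω j x ^ 2 else 0) →
      Df ≤ C • (star t * Dω * t) + κ • (1 : 𝒜)

/-- The functions in module CNT: `χ₀ = (2β - 1)₊`. -/
def chiZero {X : Type} (β : X → ℝ) (x : X) : ℝ := max 0 (2 * β x - 1)

/-- `1 - ∑_{M₀ ≤ i < ℓ - M₀} χ₀ ∘ h^{-i}`. -/
def fOut {X : Type} [TopologicalSpace X] (h : X ≃ₜ X) (ℓ M₀ : ℕ) (β : X → ℝ) (x : X) : ℝ :=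
  1 - ∑ i ∈ (Finset.range ℓ).filter (fun i => M₀ ≤ i ∧ i + M₀ < ℓ),
    chiZero β ((h ^ (-(i : ℤ))) x)

/-- `∑_{i ∈ [j s', (j+1) s')} χ₀ ∘ h^{-i}`. -/
def omJ {X : Type} [TopologicalSpace X] (h : X ≃ₜ X) (s' : ℕ) (β : X → ℝ) (j : ℕ) (x : X) : ℝ :=
  ∑ i ∈ Finset.Ico (j * s') ((j + 1) * s'), chiZero β ((h ^ (-(i : ℤ))) x)

/-- Module CNT: counting. -/
def CNTStmt : Prop :=
  ∀ (X : Type) [TopologicalSpace X] (h : X ≃ₜ X) (ℓ M₀ s' J : ℕ) (β : X → ℝ),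
    1 ≤ ℓ → J * s' ≤ ℓ → 4 * M₀ + 3 ≤ s' → Continuous β → (∀ x, 0 ≤ β x ∧ β x ≤ 1) →
    (∀ (x : X) (i : ℤ), i ≠ 0 → |i| < (ℓ : ℤ) → β x = 0 ∨ β ((h ^ i) x) = 0) →
    (∃ N₁ : ℕ, ∀ N : ℕ, N₁ ≤ N → ∀ x : X,
      (({u : ℕ | u < N ∧ ¬ ∃ i : ℕ, i < ℓ ∧ β ((h ^ ((u : ℤ) - i)) x) = 1}.ncard : ℕ) : ℝ) ≤
        1 / (2 * ℓ) * N) →
    (∀ x, 0 ≤ fOut h ℓ M₀ β x ∧ fOut h ℓ M₀ β x ≤ 1) ∧
    (∀ j x, j < J → 0 ≤ omJ h s' β j x ∧ omJ h s' β j x ≤ 1) ∧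
    (∀ i j x, i < J → j < J → i ≠ j → omJ h s' β i x = 0 ∨ omJ h s' β j x = 0) ∧
    (∀ j x, j < J → omJ h s' β j x ^ 2 =
      ∑ i ∈ Finset.Ico (j * s') ((j + 1) * s'), chiZero β ((h ^ (-(i : ℤ))) x) ^ 2) ∧
    ∃ N₂ : ℕ, ∀ N : ℕ, N₂ ≤ N → ∀ (x : X) (j : ℕ), j < J →
      {u : ℕ | u < N ∧ fOut h ℓ M₀ β ((h ^ (u : ℤ)) x) ^ 2 ≠ 0}.ncard ≤
        {u : ℕ | u < N ∧ omJ h s' β j ((h ^ (u : ℤ)) x) = 1}.ncard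

/-! ## Group B: block operators and the final assembly -/

/-- Continuous families of matrices supported in `{β ≠ 0}`. -/
def Adm {X : Type} [TopologicalSpace X] {ℓ n : ℕ} (β : X → ℝ)
    (V : X → (EE ℓ n →L[ℂ] EE ℓ n)) : Prop :=
  Continuous V ∧ ∀ x, β x = 0 → V x = 0

/-- Module BLK (from MB): block operators. -/
def BLKStmt : Prop :=
  ∀ (X : Type) [TopologicalSpace X] [CompactSpace X] (h : X ≃ₜ X) (n : ℕ)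
    (𝒜 : Type) [CStarAlgebra 𝒜] [PartialOrder 𝒜] [StarOrderedRing 𝒜] (M : Model h n 𝒜)
    (ℓ : ℕ) (β : X → ℝ), Continuous β →
    (∀ (x : X) (i : ℤ), i ≠ 0 → |i| < (ℓ : ℤ) → β x = 0 ∨ β ((h ^ i) x) = 0) →
    ∃ T : (X → (EE ℓ n →L[ℂ] EE ℓ n)) → 𝒜,
      (∀ V W, Adm β V → Adm β W → T (fun x => V x + W x) = T V + T W) ∧
      (∀ (c : ℝ) V, Adm β V → T (fun x => c • V x) = c • T V) ∧
      (∀ V W, Adm β V → Adm β W → T (fun x => V x * W x) = T V * T W) ∧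
      (∀ V, Adm β V → T (fun x => star (V x)) = star (T V)) ∧
      (∀ V, Adm β V → ∀ C : ℝ, 0 ≤ C → (∀ x, V x ≤ C • 1) → T V ≤ C • 1) ∧
      (∀ (b₁ : 𝒜) (M₀ : ℕ), BandLE M b₁ M₀ → ∀ V W, Adm β V → Adm β W →
        (∀ x, V x * lev ℓ n M₀ = V x) → (∀ x, lev ℓ n M₀ * W x = W x) →
        T V * b₁ * T W = T (fun x => V x * win ℓ M₀ (M.fib x b₁) * W x)) ∧
      (∀ (F₁₁ F₁₂ F₂₁ F₂₂ : X → (EE ℓ n →L[ℂ] EE ℓ n)) (t : 𝒜),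
        Adm β F₁₁ → Adm β F₁₂ → Adm β F₂₁ → Adm β F₂₂ →
        (∀ (x : X) (u w : EE ℓ n),
          0 ≤ ⟪u, F₁₁ x u⟫_ℂ + ⟪u, F₁₂ x w⟫_ℂ + ⟪w, F₂₁ x u⟫_ℂ + ⟪w, F₂₂ x w⟫_ℂ) →
        0 ≤ T F₁₁ + T F₁₂ * t + star t * T F₂₁ + star t * T F₂₂ * t) ∧
      (∀ (φ : X → Fin ℓ → Fin n → ℝ), Continuous φ → (∀ x, β x = 0 → φ x = 0) →
        ∀ V : X → (EE ℓ n →L[ℂ] EE ℓ n),
        (∀ x (v : EE ℓ n) (p : Fin ℓ × Fin n), V x v p = (φ x p.1 p.2 : ℂ) * v p) →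
        Adm β V ∧ IsDiag M (T V)
          (fun x e => ∑ i : Fin ℓ, φ ((h ^ (-((i : ℕ) : ℤ))) x) i e))

/-- Module ASM (from WIN, URP, COS, CNT, BLK, MB, LA): comparison in a model. -/
def ASMStmt : Prop :=
  ∀ (X : Type) [TopologicalSpace X] [CompactSpace X] [T2Space X] (h : X ≃ₜ X), Marker h →
    ∀ (n : ℕ) (𝒜 : Type) [CStarAlgebra 𝒜] [PartialOrder 𝒜] [StarOrderedRing 𝒜]
    (M : Model h n 𝒜), 0 < n →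
    ∀ (a b : 𝒜), 0 ≤ a → ‖a‖ ≤ 1 → 0 ≤ b → ‖b‖ ≤ 1 →
    ∀ (r ν κ : ℝ) (m N₀ : ℕ), 0 ≤ r → 0 < ν → ν ≤ 1 → 0 < κ → 1 ≤ m →
    mdim h < ENNReal.ofReal (2 * r) →
    AvgIneq M (cfcC (fun t => clamp (2 * t / κ)) a) (cfcC (fun t => clamp t ^ (1 / (m : ℝ))) b)
      r ν N₀ →
    ∃ s : 𝒜, a ≤ star s * b * s + (16 * κ) • (1 : 𝒜)

end Pool.Agent.H27.RC
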