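import Mathlib
import Pool.Agent.H27.RC.Stmts

/-!
Project RC, auxiliary lemmas for module ASM.
-/

open scoped ENNReal NNReal InnerProductSpace ComplexOrder
open Filter Topology

noncomputable section

namespace Pool.Agent.H27.RC

section cstar

variable {B : Type} [CStarAlgebra B] [PartialOrder B] [StarOrderedRing B]

theorem le_of_norm_sub_le {b b₁ : B} {η : ℝ} (hb : IsSelfAdjoint b) (hb₁ : IsSelfAdjoint b₁)
    (h : ‖b - b₁‖ ≤ η) : b ≤ b₁ + η • (1 : B) := by
  have h1 : b - b₁ ≤ algebraMap ℝ B ‖b - b₁‖ := (hb.sub hb₁).le_algebraMap_norm_self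
  have h2 : algebraMap ℝ B ‖b - b₁‖ ≤ algebraMap ℝ B η := by
    rw [Algebra.algebraMap_eq_smul_one, Algebra.algebraMap_eq_smul_one]
    exact smul_le_smul_of_nonneg_right h zero_le_one
  have h3 := h1.trans h2
  rw [Algebra.algebraMap_eq_smul_one] at h3
  have := add_le_add_left h3 b₁
  rw [add_comm] at this
  simpa [add_comm] using this

theorem split_le {a χ : B} (ha : 0 ≤ a) (hχ : IsSelfAdjoint χ) :
    a ≤ (2 : ℝ) • (χ * a * χ) + (2 : ℝ) • ((1 - χ) * a * (1 - χ)) := by
  have h1 : 0 ≤ star (χ - (1 - χ)) * a * (χ - (1 - χ)) := star_left_conjugate_nonneg ha _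
  have h2 : star (χ - (1 - χ)) = χ - (1 - χ) := by
    rw [star_sub, star_sub, hχ.star_eq, star_one]
  rw [h2] at h1
  have h3 : (2 : ℝ) • (χ * a * χ) + (2 : ℝ) • ((1 - χ) * a * (1 - χ)) - a =
      (χ - (1 - χ)) * a * (χ - (1 - χ)) := by
    rw [two_smul, two_smul]
    noncomm_ring
  rw [← sub_nonneg, h3]
  exact h1

theorem proj_mem {p : B} (h1 : star p = p) (h2 : p * p = p) : 0 ≤ p ∧ p ≤ 1 := by
  constructor
  · have : p = star p * p := by rw [h1, h2]
    rw [this]
    exact star_mul_self_nonneg _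
  · rw [← sub_nonneg]
    have : (1 - p) = star (1 - p) * (1 - p) := by
      rw [star_sub, star_one, h1, mul_sub, sub_mul, sub_mul, h2]
      simp
    rw [this]
    exact star_mul_self_nonneg _

end cstar

section diag

variable {X : Type} [TopologicalSpace X] {h : X ≃ₜ X} {n : ℕ} {𝒜 : Type} [CStarAlgebra 𝒜]
  (M : Model h n 𝒜)

theorem fib_del_of_isDiag {T : 𝒜} {φ : X → Fin n → ℝ} (hT : IsDiag M T φ) (x : X)
    (q : ℤ × Fin n) : M.fib x T (del q) = ((φ ((h ^ q.1) x) q.2 : ℝ) : ℂ) • del q := by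
  ext p
  have h1 := hT x p q
  unfold entry at h1
  rw [h1]
  rw [lp.coeFn_smul, Pi.smul_apply, del, lp.single_apply]
  by_cases hpq : p = q
  · subst hpq; simp
  · rw [if_neg hpq, Pi.single_eq_of_ne hpq]; simp

theorem IsDiag.mul {S T : 𝒜} {φ ψ : X → Fin n → ℝ} (hS : IsDiag M S φ) (hT : IsDiag M T ψ) :
    IsDiag M (S * T) (fun x e => φ x e * ψ x e) := by
  intro x p q
  unfold entry
  rw [map_mul, mul_apply_eq_comp, fib_del_of_isDiag M hT, map_smul,
    fib_del_of_isDiag M hS]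
  rw [lp.coeFn_smul, Pi.smul_apply, lp.coeFn_smul, Pi.smul_apply, del, lp.single_apply]
  by_cases hpq : p = q
  · subst hpq; simp [mul_comm]
  · rw [if_neg hpq, Pi.single_eq_of_ne hpq]; simp

theorem IsDiag.one : IsDiag M (1 : 𝒜) (fun _ _ => 1) := by
  intro x p q
  unfold entry
  rw [map_one, one_apply_eq_self, del, lp.single_apply]
  by_cases hpq : p = q
  · subst hpq; simp
  · rw [if_neg hpq, Pi.single_eq_of_ne hpq]

theorem entry_sub (x : X) (S T : 𝒜) (p q : ℤ × Fin n) :
    entry (M.fib x (S - T)) p q = entry (M.fib x S) p q - entry (M.fib x T) p q := by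
  unfold entry
  rw [map_sub, sub_apply, lp.coeFn_sub, Pi.sub_apply]

theorem IsDiag.sub {S T : 𝒜} {φ ψ : X → Fin n → ℝ} (hS : IsDiag M S φ) (hT : IsDiag M T ψ) :
    IsDiag M (S - T) (fun x e => φ x e - ψ x e) := by
  intro x p q
  rw [entry_sub, hS x p q, hT x p q]
  split_ifs <;> simp

theorem exists_isDiag (φ : X → Fin n → ℝ) (hφ : Continuous φ) : ∃ T : 𝒜, IsDiag M T φ := by
  obtain ⟨T, hT⟩ := M.band 0 (fun k x => if k = 0 then Matrix.diagonal (fun e => (φ x e : ℂ)) else 0)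
    (by
      intro k
      by_cases hk : k = 0
      · simp only [hk, if_true]
        refine Continuous.matrix_diagonal ?_
        exact continuous_pi (fun e => Complex.continuous_ofReal.comp ((continuous_apply e).comp hφ))
      · simp only [hk, if_false]; exact continuous_const)
  refine ⟨T, fun x p q => ?_⟩
  rw [hT.2 x p q]
  by_cases hpq : p = q
  · subst hpq; simp
  · rw [if_neg hpq]
    by_cases h1 : p.1 = q.1
    · have h2 : p.2 ≠ q.2 := fun h2 => hpq (Prod.ext h1 h2)
      simp [h1, Matrix.diagonal_apply_ne _ h2]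
    · have : ¬ |p.1 - q.1| ≤ ((0 : ℕ) : ℤ) := by
        simp only [Nat.cast_zero, abs_nonpos_iff]
        intro h3; exact h1 (by linarith)
      rw [if_neg this]

variable [PartialOrder 𝒜] [StarOrderedRing 𝒜]

theorem isDiag_nonneg [CompactSpace X] (hMB : MBStmt) {T : 𝒜} {φ : X → Fin n → ℝ}
    (hT : IsDiag M T φ) (hφ : ∀ x e, 0 ≤ φ x e) : 0 ≤ T := by
  refine (hMB X h n 𝒜 M).2.1 T (fun x v => ?_)
  refine Finset.sum_nonneg (fun p hp => ?_)
  rw [Finset.sum_eq_single p]
  · rw [hT x p p, if_pos rfl]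
    have : (starRingEnd ℂ) (v p) * ((φ ((h ^ p.1) x) p.2 : ℝ) : ℂ) * v p =
        ((φ ((h ^ p.1) x) p.2 * Complex.normSq (v p) : ℝ) : ℂ) := by
      push_cast
      rw [Complex.normSq_eq_conj_mul_self]
      ring
    rw [this]
    exact_mod_cast mul_nonneg (hφ _ _) (Complex.normSq_nonneg _)
  · intro q _ hqp
    rw [hT x p q, if_neg (Ne.symm hqp)]
    simp
  · intro hp'; exact absurd hp hp'

end diag

section place

variable {ℓ n : ℕ}

theorem place_apply (M : ℕ) (m : ℤ) (v : EE ℓ n) :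
    place M m v = ∑ p ∈ Finset.univ.filter
      (fun p : Fin ℓ × Fin n => M ≤ (p.1 : ℕ) ∧ (p.1 : ℕ) + M < ℓ),
      v p • (del (m + ((p.1 : ℕ) : ℤ), p.2) : Hil n) := by
  unfold place
  rw [sum_apply]
  rfl

theorem inner_del (p q : ℤ × Fin n) :
    ⟪(del p : Hil n), del q⟫_ℂ = if p = q then 1 else 0 := by
  unfold del
  rw [lp.inner_single_left]
  rw [lp.single_apply]
  by_cases hpq : p = q
  · subst hpq; simp
  · rw [if_neg hpq, Pi.single_eq_of_ne hpq]; simp

theorem lev_apply (M : ℕ) (v : EE ℓ n) (p : Fin ℓ × Fin n) :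
    lev ℓ n M v p = if M ≤ (p.1 : ℕ) ∧ (p.1 : ℕ) + M < ℓ then v p else 0 := by
  have h1 : lev ℓ n M v p = ⟪EuclideanSpace.single p (1 : ℂ), lev ℓ n M v⟫_ℂ := by
    rw [EuclideanSpace.inner_single_left]; simp
  rw [h1]
  unfold lev
  rw [ContinuousLinearMap.comp_apply, ContinuousLinearMap.adjoint_inner_right]
  rw [place_apply, place_apply, sum_inner]
  simp_rw [inner_sum, inner_smul_left, inner_smul_right, inner_del]
  by_cases hp : M ≤ (p.1 : ℕ) ∧ (p.1 : ℕ) + M < ℓ
  · rw [if_pos hp, Finset.sum_eq_single p, Finset.sum_eq_single p]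
    · simp
    · intro q _ hqp
      rw [if_neg]
      · simp
      · intro h2
        apply hqp
        rw [Prod.mk.injEq] at h2
        obtain ⟨h3, h4⟩ := h2
        refine Prod.ext (Fin.ext ?_) h4.symm
        omega
    · intro hp'; exact absurd (Finset.mem_filter.2 ⟨Finset.mem_univ p, hp⟩) hp'
    · intro q _ hqp
      refine Finset.sum_eq_zero (fun r _ => ?_)
      rw [PiLp.single_apply, if_neg hqp]; simp
    · intro hp'; exact absurd (Finset.mem_filter.2 ⟨Finset.mem_univ p, hp⟩) hp'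
  · rw [if_neg hp]
    refine Finset.sum_eq_zero (fun q hq => ?_)
    have : q ≠ p := by
      rintro rfl
      exact hp (Finset.mem_filter.1 hq).2
    refine Finset.sum_eq_zero (fun r _ => ?_)
    rw [PiLp.single_apply, if_neg this]; simp

theorem place_lev (M : ℕ) (m : ℤ) (v : EE ℓ n) : place M m (lev ℓ n M v) = place M m v := by
  rw [place_apply, place_apply]
  refine Finset.sum_congr rfl (fun p hp => ?_)
  rw [lev_apply, if_pos (Finset.mem_filter.1 hp).2]

theorem star_lev (M : ℕ) : star (lev ℓ n M) = lev ℓ n M := by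
  rw [ContinuousLinearMap.star_eq_adjoint]
  unfold lev
  rw [ContinuousLinearMap.adjoint_comp, ContinuousLinearMap.adjoint_adjoint]

theorem lev_mul_lev (M : ℕ) : lev ℓ n M * lev ℓ n M = lev ℓ n M := by
  ext v p
  rw [mul_apply_eq_comp, lev_apply, lev_apply]
  split_ifs <;> rfl

theorem win_mul_lev (M : ℕ) (T : Hil n →L[ℂ] Hil n) : win ℓ M T * lev ℓ n M = win ℓ M T := by
  ext v p
  rw [mul_apply_eq_comp]
  unfold win
  simp only [ContinuousLinearMap.comp_apply]
  rw [place_lev]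

theorem lev_mul_win (M : ℕ) (T : Hil n →L[ℂ] Hil n) : lev ℓ n M * win ℓ M T = win ℓ M T := by
  have h1 := congrArg star (win_mul_lev (ℓ := ℓ) M (ContinuousLinearMap.adjoint T))
  rw [star_mul, star_lev] at h1
  have h2 : star (win ℓ M (ContinuousLinearMap.adjoint T)) = win ℓ M T := by
    rw [ContinuousLinearMap.star_eq_adjoint]
    unfold win
    rw [ContinuousLinearMap.adjoint_comp, ContinuousLinearMap.adjoint_comp,
      ContinuousLinearMap.adjoint_adjoint, ContinuousLinearMap.adjoint_adjoint]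
    rfl
  rw [h2] at h1
  exact h1

theorem lev_le_one (M : ℕ) : lev ℓ n M ≤ 1 := (proj_mem (star_lev M) (lev_mul_lev M)).2

theorem lev_nonneg (M : ℕ) : 0 ≤ lev ℓ n M := (proj_mem (star_lev M) (lev_mul_lev M)).1

theorem win_nonneg (M : ℕ) {T : Hil n →L[ℂ] Hil n} (hT : 0 ≤ T) : 0 ≤ win ℓ M T := by
  rw [ContinuousLinearMap.nonneg_iff_isPositive] at hT ⊢
  unfold win
  exact hT.adjoint_conj (place M 0)

theorem win_sub (M : ℕ) (S T : Hil n →L[ℂ] Hil n) :
    win ℓ M (S - T) = win ℓ M S - win ℓ M T := by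
  unfold win
  rw [ContinuousLinearMap.sub_comp, ContinuousLinearMap.comp_sub]

end place

end Pool.Agent.H27.RC
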