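import Mathlib
import Pool.Agent.H27.RC.Stmts
import Pool.Agent.H27.RC.AsmAux

/-!
Project RC, module ASM: comparison in a model, from WIN, URP, COS, CNT, BLK, MB, LA.
-/

open scoped ENNReal NNReal InnerProductSpace ComplexOrder
open Filter Topology

noncomputable section

namespace Pool.Agent.H27.RC

theorem clamp_continuous : Continuous clamp := by
  unfold clamp; fun_prop

theorem gTwo_continuous (ε : ℝ) : Continuous (gTwo ε) := by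
  unfold gTwo
  exact clamp_continuous.comp (by fun_prop)

theorem gOne_continuous (κ : ℝ) : Continuous (gOne κ) := by
  unfold gOne; fun_prop

theorem gTwo_eq_zero {ε t : ℝ} (hε : 0 < ε) (ht : t < ε / 2) : gTwo ε t = 0 := by
  unfold gTwo clamp
  have h1 : 2 * t / ε - 1 ≤ 0 := by
    rw [sub_nonpos, div_le_one hε]; linarith
  rw [max_eq_left h1]; simp

theorem gOne_eq_zero {κ t : ℝ} (ht : t < κ) : gOne κ t = 0 := by
  unfold gOne
  rw [max_eq_left (by linarith)]; simp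

theorem continuous_cfc_family {E : Type} [NormedAddCommGroup E] [InnerProductSpace ℂ E]
    [CompleteSpace E] {X : Type} [TopologicalSpace X] (f : ℝ → ℝ) (hf : Continuous f)
    (A : X → (E →L[ℂ] E)) (hA : Continuous A) (hA0 : ∀ x, 0 ≤ A x) :
    Continuous fun x => cfc f (A x) :=
  Continuous.cfc_of_mem_nhdsSet (s := Set.univ) f (Filter.univ_mem) hA
    (fun x => (IsSelfAdjoint.of_nonneg (hA0 x))) hf.continuousOn

theorem isSelfAdjoint_cfc {E : Type} [NormedAddCommGroup E] [InnerProductSpace ℂ E]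
    [CompleteSpace E] (f : ℝ → ℝ) (A : E →L[ℂ] E) : star (cfc f A) = cfc f A :=
  (cfc_predicate f A : IsSelfAdjoint (cfc f A)).star_eq

theorem inner_win {ℓ n : ℕ} (M : ℕ) (T : Hil n →L[ℂ] Hil n) (u v : EE ℓ n) :
    ⟪u, win ℓ M T v⟫_ℂ = ⟪place M 0 u, T (place M 0 v)⟫_ℂ := by
  unfold win
  simp only [ContinuousLinearMap.comp_apply]
  rw [ContinuousLinearMap.adjoint_inner_right]

/-- `A ≤ (√(A-κ)_+)² + κ`. -/
theorem le_gOne_sq {B : Type} [CStarAlgebra B] [PartialOrder B] [StarOrderedRing B] (A : B)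
    (hA : 0 ≤ A) (κ : ℝ) (hκ : 0 ≤ κ) :
    A ≤ cfc (gOne κ) A * cfc (gOne κ) A + κ • (1 : B) := by
  have hsa : IsSelfAdjoint A := IsSelfAdjoint.of_nonneg hA
  have hc : Continuous (gOne κ) := gOne_continuous κ
  rw [← cfc_mul (gOne κ) (gOne κ) A hc.continuousOn hc.continuousOn]
  have h1 : κ • (1 : B) = cfc (fun _ : ℝ => κ) A := by
    rw [cfc_const κ A, Algebra.algebraMap_eq_smul_one]
  rw [h1, ← cfc_add A (fun x => gOne κ x * gOne κ x) (fun _ => κ)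
    (hc.mul hc).continuousOn continuous_const.continuousOn]
  conv_lhs => rw [← cfc_id ℝ A]
  refine cfc_mono (fun t _ => ?_) continuous_id.continuousOn
    ((hc.mul hc).add continuous_const).continuousOn
  simp only [id]
  unfold gOne
  rw [Real.mul_self_sqrt (le_max_left _ _)]
  have := le_max_right 0 (t - κ)
  linarith

/-- the projection onto the coordinates `(j, 0)`, `j < s` -/
def Js {ℓ n : ℕ} (hn : 0 < n) (s : ℕ) (hs : s ≤ ℓ) : EE ℓ n →L[ℂ] EuclideanSpace ℂ (Fin s) :=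
  (EuclideanSpace.equiv (Fin s) ℂ).symm.toContinuousLinearMap ∘L
    ContinuousLinearMap.pi (fun j : Fin s =>
      (EuclideanSpace.proj ((⟨j, lt_of_lt_of_le j.2 hs⟩ : Fin ℓ), (⟨0, hn⟩ : Fin n)) :
        EE ℓ n →L[ℂ] ℂ))

theorem Js_apply {ℓ n : ℕ} (hn : 0 < n) (s : ℕ) (hs : s ≤ ℓ) (v : EE ℓ n) (j : Fin s) :
    Js hn s hs v j = v (⟨j, lt_of_lt_of_le j.2 hs⟩, ⟨0, hn⟩) := rfl

theorem JsJs_apply {ℓ n : ℕ} (hn : 0 < n) (s : ℕ) (hs : s ≤ ℓ) (v : EE ℓ n) (p : Fin ℓ × Fin n) :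
    (ContinuousLinearMap.adjoint (Js hn s hs) ∘L Js hn s hs) v p =
      if (p.1 : ℕ) < s ∧ (p.2 : ℕ) = 0 then v p else 0 := by
  have h1 : (ContinuousLinearMap.adjoint (Js hn s hs) ∘L Js hn s hs) v p =
      ⟪EuclideanSpace.single p (1 : ℂ),
        (ContinuousLinearMap.adjoint (Js hn s hs) ∘L Js hn s hs) v⟫_ℂ := by
    rw [EuclideanSpace.inner_single_left]; simp
  rw [h1, ContinuousLinearMap.comp_apply, ContinuousLinearMap.adjoint_inner_right,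
    PiLp.inner_apply]
  simp_rw [Js_apply, PiLp.single_apply]
  by_cases hp : (p.1 : ℕ) < s ∧ (p.2 : ℕ) = 0
  · rw [if_pos hp]
    obtain ⟨hp1, hp2⟩ := hp
    have hpe : ((⟨p.1, lt_of_lt_of_le hp1 hs⟩ : Fin ℓ), (⟨0, hn⟩ : Fin n)) = p := by
      refine Prod.ext (Fin.ext rfl) (Fin.ext ?_)
      exact hp2.symm
    rw [Finset.sum_eq_single (⟨p.1, hp1⟩ : Fin s)]
    · rw [if_pos hpe]
      simp [hpe]
    · intro j _ hj
      rw [if_neg]
      · simp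
      · intro h2
        apply hj
        have := congrArg (fun q : Fin ℓ × Fin n => (q.1 : ℕ)) h2
        exact Fin.ext this
    · intro h2; exact absurd (Finset.mem_univ _) h2
  · rw [if_neg hp]
    refine Finset.sum_eq_zero (fun j _ => ?_)
    rw [if_neg]
    · simp
    · intro h2
      apply hp
      constructor
      · have := congrArg (fun q : Fin ℓ × Fin n => (q.1 : ℕ)) h2
        simp only at this
        rw [← this]; exact j.2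
      · have := congrArg (fun q : Fin ℓ × Fin n => (q.2 : ℕ)) h2
        simp only at this
        rw [← this]


/-- the quadratic form estimate in one window -/
theorem window_estimate (hLA : LAStmt) {ℓ n s M₀ : ℕ} {A B W : EE ℓ n →L[ℂ] EE ℓ n}
    {ε η κ c : ℝ} (hε : 0 < ε) (hη : 0 ≤ η) (hηε : η ≤ ε / 8) (hc : 0 < c) (hκ : 0 < κ)
    (hA : 0 ≤ A) (hB : 0 ≤ B)
    (hBW : ‖B - W‖ ≤ η)
    (z₁ : EE ℓ n →L[ℂ] EE ℓ n) (z₀ : EuclideanSpace ℂ (Fin s) →L[ℂ] EE ℓ n)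
    (hz : ∀ u ∈ specAbove A κ, ∀ w : EuclideanSpace ℂ (Fin s),
      c * (‖u‖ ^ 2 + ‖w‖ ^ 2) ≤ ‖cfc (gTwo ε) B (z₁ u + z₀ w)‖ ^ 2)
    (χ : ℝ) (u : EE ℓ n) (w : EuclideanSpace ℂ (Fin s)) (ζ : EE ℓ n)
    (hζ : ζ = (χ : ℂ) • cfc (gTwo ε) B (z₁ (cfc (gOne κ) A u) + z₀ w)) :
    (3 * ε / 8) * ‖ζ‖ ^ 2 ≤ (⟪ζ, W ζ⟫_ℂ).re ∧
    c * (χ ^ 2 * (‖cfc (gOne κ) A u‖ ^ 2 + ‖w‖ ^ 2)) ≤ ‖ζ‖ ^ 2 := by
  have h2 := (hLA.2 (EE ℓ n) B hB)
  obtain ⟨-, hcf, -, hlow⟩ := h2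
  have hmem : ζ ∈ specAbove B (ε / 2) := by
    rw [hζ]
    refine Submodule.smul_mem _ _ (hcf (gTwo ε) (ε / 2) (by linarith)
      (fun t _ ht => gTwo_eq_zero hε ht) (gTwo_continuous ε) _)
  constructor
  · have h3 := hlow (ε / 2) ζ hmem
    have h4 : (⟪ζ, W ζ⟫_ℂ).re = (⟪ζ, B ζ⟫_ℂ).re - (⟪ζ, (B - W) ζ⟫_ℂ).re := by
      rw [sub_apply, inner_sub_right]
      simp
    have h5 : (⟪ζ, (B - W) ζ⟫_ℂ).re ≤ η * ‖ζ‖ ^ 2 := by
      calc (⟪ζ, (B - W) ζ⟫_ℂ).re ≤ ‖⟪ζ, (B - W) ζ⟫_ℂ‖ := Complex.re_le_norm _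
        _ ≤ ‖ζ‖ * ‖(B - W) ζ‖ := norm_inner_le_norm _ _
        _ ≤ ‖ζ‖ * (‖B - W‖ * ‖ζ‖) :=
            mul_le_mul_of_nonneg_left ((B - W).le_opNorm ζ) (norm_nonneg _)
        _ ≤ ‖ζ‖ * (η * ‖ζ‖) := by gcongr
        _ = η * ‖ζ‖ ^ 2 := by ring
    rw [h4]
    have h6 : η * ‖ζ‖ ^ 2 ≤ ε / 8 * ‖ζ‖ ^ 2 := by gcongr
    nlinarith [sq_nonneg ‖ζ‖]
  · have hu : cfc (gOne κ) A u ∈ specAbove A κ :=
      (hLA.2 (EE ℓ n) A hA).2.1 (gOne κ) κ hκ (fun t _ ht => gOne_eq_zero ht)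
        (gOne_continuous κ) u
    have h3 := hz _ hu w
    rw [hζ, norm_smul, mul_pow]
    have h4 : ‖(χ : ℂ)‖ ^ 2 = χ ^ 2 := by
      rw [Complex.norm_real, Real.norm_eq_abs, sq_abs]
    rw [h4]
    calc c * (χ ^ 2 * (‖cfc (gOne κ) A u‖ ^ 2 + ‖w‖ ^ 2))
        = χ ^ 2 * (c * (‖cfc (gOne κ) A u‖ ^ 2 + ‖w‖ ^ 2)) := by ring
      _ ≤ _ := mul_le_mul_of_nonneg_left h3 (sq_nonneg _)

end Pool.Agent.H27.RC
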