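import Mathlib
import Pool.Agent.H27.RC.Stmts
import Pool.Agent.H27.RC.AsmAux
import Pool.Agent.H27.RC.Asm

/-!
Project RC, module ASM, part 2.
-/

open scoped ENNReal NNReal InnerProductSpace ComplexOrder
open Filter Topology

noncomputable section

namespace Pool.Agent.H27.RC

theorem inner_del_left {n : ℕ} (p : ℤ × Fin n) (f : Hil n) : ⟪(del p : Hil n), f⟫_ℂ = f p := by
  unfold del
  rw [lp.inner_single_left]
  simp

theorem place_single {ℓ n : ℕ} (M : ℕ) (m : ℤ) (p : Fin ℓ × Fin n) :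
    place M m (EuclideanSpace.single p (1 : ℂ)) =
      if M ≤ (p.1 : ℕ) ∧ (p.1 : ℕ) + M < ℓ then (del (m + ((p.1 : ℕ) : ℤ), p.2) : Hil n) else 0 := by
  rw [place_apply]
  by_cases hp : M ≤ (p.1 : ℕ) ∧ (p.1 : ℕ) + M < ℓ
  · rw [if_pos hp, Finset.sum_eq_single p]
    · simp
    · intro q _ hqp
      rw [PiLp.single_apply, if_neg hqp, zero_smul]
    · intro h2; exact absurd (Finset.mem_filter.2 ⟨Finset.mem_univ p, hp⟩) h2
  · rw [if_neg hp]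
    refine Finset.sum_eq_zero (fun q hq => ?_)
    have hqp : q ≠ p := by
      rintro rfl; exact hp (Finset.mem_filter.1 hq).2
    rw [PiLp.single_apply, if_neg hqp, zero_smul]

theorem win_apply {ℓ n : ℕ} (M : ℕ) (T : Hil n →L[ℂ] Hil n) (v : EE ℓ n) (p : Fin ℓ × Fin n) :
    win ℓ M T v p = if M ≤ (p.1 : ℕ) ∧ (p.1 : ℕ) + M < ℓ then
      ∑ q ∈ Finset.univ.filter
      (fun q : Fin ℓ × Fin n => M ≤ (q.1 : ℕ) ∧ (q.1 : ℕ) + M < ℓ),
      v q * entry T (((p.1 : ℕ) : ℤ), p.2) (((q.1 : ℕ) : ℤ), q.2) else 0 := by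
  have h1 : win ℓ M T v p = ⟪EuclideanSpace.single p (1 : ℂ), win ℓ M T v⟫_ℂ := by
    rw [EuclideanSpace.inner_single_left]; simp
  rw [h1, inner_win, place_single]
  split_ifs with hp
  · rw [inner_del_left, place_apply, map_sum, lp.coeFn_sum, Finset.sum_apply]
    refine Finset.sum_congr rfl (fun q _ => ?_)
    rw [map_smul, lp.coeFn_smul, Pi.smul_apply, smul_eq_mul]
    unfold entry
    simp
  · rw [inner_zero_left]

section

variable {X : Type} [TopologicalSpace X] [CompactSpace X] {h : X ≃ₜ X} {n : ℕ} {𝒜 : Type}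
  [CStarAlgebra 𝒜] [PartialOrder 𝒜] [StarOrderedRing 𝒜] (M : Model h n 𝒜)

theorem continuous_win (hMB : MBStmt) (ℓ M₀ : ℕ) (b : 𝒜) :
    Continuous fun x => win ℓ M₀ (M.fib x b) := by
  rw [continuous_clm_apply]
  intro v
  have h1 : Continuous fun x => (EuclideanSpace.equiv (Fin ℓ × Fin n) ℂ) (win ℓ M₀ (M.fib x b) v) := by
    refine continuous_pi (fun p => ?_)
    have h2 : (fun x => (EuclideanSpace.equiv (Fin ℓ × Fin n) ℂ) (win ℓ M₀ (M.fib x b) v) p) =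
        fun x => if M₀ ≤ (p.1 : ℕ) ∧ (p.1 : ℕ) + M₀ < ℓ then
          ∑ q ∈ Finset.univ.filter
          (fun q : Fin ℓ × Fin n => M₀ ≤ (q.1 : ℕ) ∧ (q.1 : ℕ) + M₀ < ℓ),
          v q * entry (M.fib x b) (((p.1 : ℕ) : ℤ), p.2) (((q.1 : ℕ) : ℤ), q.2) else 0 := by
      funext x
      exact win_apply M₀ (M.fib x b) v p
    rw [h2]
    split_ifs
    · refine continuous_finsetSum _ (fun q _ => ?_)
      exact continuous_const.mul ((hMB X h n 𝒜 M).2.2.2.1 b _ _)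
    · exact continuous_const
  have h3 := (EuclideanSpace.equiv (Fin ℓ × Fin n) ℂ).symm.continuous.comp h1
  simpa [Function.comp_def] using h3

end

theorem continuous_star_clm {E : Type} [NormedAddCommGroup E] [InnerProductSpace ℂ E]
    [CompleteSpace E] : Continuous fun T : E →L[ℂ] E => star T := by
  simp only [ContinuousLinearMap.star_eq_adjoint]
  exact (ContinuousLinearMap.adjoint (𝕜 := ℂ) (E := E) (F := E)).continuous

/-- expansion of the quadratic form -/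
theorem quad_expand {E : Type} [NormedAddCommGroup E] [InnerProductSpace ℂ E] [CompleteSpace E]
    (V₁ V₀ W : E →L[ℂ] E) (u w : E) :
    ⟪u, (star V₁ * W * V₁) u⟫_ℂ + ⟪u, (star V₁ * W * V₀) w⟫_ℂ + ⟪w, (star V₀ * W * V₁) u⟫_ℂ +
      ⟪w, (star V₀ * W * V₀) w⟫_ℂ = ⟪V₁ u + V₀ w, W (V₁ u + V₀ w)⟫_ℂ := by
  simp only [mul_apply_eq_comp, ContinuousLinearMap.star_eq_adjoint,
    ContinuousLinearMap.adjoint_inner_right, map_add, inner_add_left, inner_add_right]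
  ring

section lower

variable {X : Type} [TopologicalSpace X] [CompactSpace X] {h : X ≃ₜ X} {n : ℕ} {𝒜 : Type}
  [CStarAlgebra 𝒜] [PartialOrder 𝒜] [StarOrderedRing 𝒜] (M : Model h n 𝒜)

/-- `S* b₁ S ≥ γ (T G + t* T Ψ t)` for `S = T V₁ + T V₀ t`. -/
theorem lower_general {ℓ M₀ : ℕ} {β : X → ℝ} (hMB : MBStmt)
    (T : (X → (EE ℓ n →L[ℂ] EE ℓ n)) → 𝒜)
    (hadd : ∀ V W, Adm β V → Adm β W → T (fun x => V x + W x) = T V + T W)
    (hsmul : ∀ (c : ℝ) V, Adm β V → T (fun x => c • V x) = c • T V)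
    (hstar : ∀ V, Adm β V → T (fun x => star (V x)) = star (T V))
    (b₁ : 𝒜) (hBb : BandLE M b₁ M₀)
    (hwin : ∀ (b₁ : 𝒜) (M₀ : ℕ), BandLE M b₁ M₀ → ∀ V W, Adm β V → Adm β W →
        (∀ x, V x * lev ℓ n M₀ = V x) → (∀ x, lev ℓ n M₀ * W x = W x) →
        T V * b₁ * T W = T (fun x => V x * win ℓ M₀ (M.fib x b₁) * W x))
    (hpos : ∀ (F₁₁ F₁₂ F₂₁ F₂₂ : X → (EE ℓ n →L[ℂ] EE ℓ n)) (t : 𝒜),
        Adm β F₁₁ → Adm β F₁₂ → Adm β F₂₁ → Adm β F₂₂ →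
        (∀ (x : X) (u w : EE ℓ n),
          0 ≤ ⟪u, F₁₁ x u⟫_ℂ + ⟪u, F₁₂ x w⟫_ℂ + ⟪w, F₂₁ x u⟫_ℂ + ⟪w, F₂₂ x w⟫_ℂ) →
        0 ≤ T F₁₁ + T F₁₂ * t + star t * T F₂₁ + star t * T F₂₂ * t)
    (V₁ V₀ G Ψ : X → (EE ℓ n →L[ℂ] EE ℓ n)) (hV₁ : Adm β V₁) (hV₀ : Adm β V₀) (hG : Adm β G)
    (hΨ : Adm β Ψ) (hl₁ : ∀ x, lev ℓ n M₀ * V₁ x = V₁ x) (hl₀ : ∀ x, lev ℓ n M₀ * V₀ x = V₀ x)
    (γ : ℝ) (t : 𝒜)
    (hq : ∀ (x : X) (u w : EE ℓ n), (γ : ℂ) * (⟪u, G x u⟫_ℂ + ⟪w, Ψ x w⟫_ℂ) ≤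
      ⟪V₁ x u + V₀ x w, win ℓ M₀ (M.fib x b₁) (V₁ x u + V₀ x w)⟫_ℂ) :
    γ • (T G + star t * T Ψ * t) ≤ star (T V₁ + T V₀ * t) * b₁ * (T V₁ + T V₀ * t) := by
  have hWc : Continuous fun x => win ℓ M₀ (M.fib x b₁) := continuous_win M hMB ℓ M₀ b₁
  have hadm : ∀ V V' : X → (EE ℓ n →L[ℂ] EE ℓ n), Adm β V → Adm β V' →
      Adm β (fun x => star (V x) * win ℓ M₀ (M.fib x b₁) * V' x) := by
    intro V V' h1 h2
    exact ⟨((continuous_star_clm.comp h1.1).mul hWc).mul h2.1, fun x hx => by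
      change _ * V' x = 0
      rw [h2.2 x hx, mul_zero]⟩
  have hadms : ∀ V : X → (EE ℓ n →L[ℂ] EE ℓ n), Adm β V → ∀ c : ℝ, Adm β (fun x => c • V x) := by
    intro V h1 c
    exact ⟨h1.1.const_smul c, fun x hx => by
      change c • V x = 0
      rw [h1.2 x hx]
      ext v
      simp⟩
  have hadma : ∀ V V' : X → (EE ℓ n →L[ℂ] EE ℓ n), Adm β V → Adm β V' →
      Adm β (fun x => V x + V' x) := by
    intro V V' h1 h2
    exact ⟨h1.1.add h2.1, fun x hx => by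
      change V x + V' x = 0
      rw [h1.2 x hx, h2.2 x hx, add_zero]⟩
  have hst : ∀ V : X → (EE ℓ n →L[ℂ] EE ℓ n), Adm β V → Adm β (fun x => star (V x)) := by
    intro V h1
    exact ⟨continuous_star_clm.comp h1.1, fun x hx => by
      change star (V x) = 0
      rw [h1.2 x hx]; exact star_zero (EE ℓ n →L[ℂ] EE ℓ n)⟩
  have hls : ∀ V : X → (EE ℓ n →L[ℂ] EE ℓ n), (∀ x, lev ℓ n M₀ * V x = V x) →
      ∀ x, star (V x) * lev ℓ n M₀ = star (V x) := by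
    intro V h1 x
    have := congrArg star (h1 x)
    rw [star_mul, star_lev] at this
    exact this
  have hprod : ∀ V V' : X → (EE ℓ n →L[ℂ] EE ℓ n), Adm β V → Adm β V' →
      (∀ x, lev ℓ n M₀ * V x = V x) → (∀ x, lev ℓ n M₀ * V' x = V' x) →
      star (T V) * b₁ * T V' = T (fun x => star (V x) * win ℓ M₀ (M.fib x b₁) * V' x) := by
    intro V V' h1 h2 h3 h4
    rw [← hstar V h1]
    exact hwin b₁ M₀ hBb _ _ (hst V h1) h2 (hls V h3) h4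
  have hexp : star (T V₁ + T V₀ * t) * b₁ * (T V₁ + T V₀ * t) =
      T (fun x => star (V₁ x) * win ℓ M₀ (M.fib x b₁) * V₁ x) +
      T (fun x => star (V₁ x) * win ℓ M₀ (M.fib x b₁) * V₀ x) * t +
      star t * T (fun x => star (V₀ x) * win ℓ M₀ (M.fib x b₁) * V₁ x) +
      star t * T (fun x => star (V₀ x) * win ℓ M₀ (M.fib x b₁) * V₀ x) * t := by
    rw [← hprod V₁ V₁ hV₁ hV₁ hl₁ hl₁, ← hprod V₁ V₀ hV₁ hV₀ hl₁ hl₀,
      ← hprod V₀ V₁ hV₀ hV₁ hl₀ hl₁, ← hprod V₀ V₀ hV₀ hV₀ hl₀ hl₀, star_add, star_mul]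
    noncomm_ring
  have hp := hpos
    (fun x => star (V₁ x) * win ℓ M₀ (M.fib x b₁) * V₁ x + (-γ) • G x)
    (fun x => star (V₁ x) * win ℓ M₀ (M.fib x b₁) * V₀ x)
    (fun x => star (V₀ x) * win ℓ M₀ (M.fib x b₁) * V₁ x)
    (fun x => star (V₀ x) * win ℓ M₀ (M.fib x b₁) * V₀ x + (-γ) • Ψ x) t
    (hadma _ _ (hadm _ _ hV₁ hV₁) (hadms _ hG _)) (hadm _ _ hV₁ hV₀) (hadm _ _ hV₀ hV₁)
    (hadma _ _ (hadm _ _ hV₀ hV₀) (hadms _ hΨ _)) (by
      intro x u w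
      have h1 := hq x u w
      rw [← sub_nonneg] at h1
      refine h1.trans (le_of_eq ?_)
      rw [← quad_expand (V₁ x) (V₀ x) (win ℓ M₀ (M.fib x b₁)) u w]
      have hr : ∀ (F : EE ℓ n →L[ℂ] EE ℓ n) (v : EE ℓ n),
          ⟪v, ((-γ) • F) v⟫_ℂ = -((γ : ℂ) * ⟪v, F v⟫_ℂ) := by
        intro F v
        have : ((-γ) • F) v = ((-γ : ℝ) : ℂ) • F v := by
          rw [smul_apply]; rfl
        rw [this, inner_smul_right]; push_cast; ring
      simp only [add_apply, inner_add_right, hr]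
      ring)
  rw [hadd _ _ (hadm _ _ hV₁ hV₁) (hadms _ hG _), hadd _ _ (hadm _ _ hV₀ hV₀) (hadms _ hΨ _),
    hsmul _ _ hG, hsmul _ _ hΨ] at hp
  rw [← sub_nonneg, hexp]
  refine hp.trans (le_of_eq ?_)
  simp only [mul_add, add_mul, neg_smul, smul_add, mul_neg, neg_mul, mul_smul_comm, smul_mul_assoc]
  abel

end lower

end Pool.Agent.H27.RC
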