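import Mathlib
import Pool.Agent.H27.RC.Stmts
import Pool.Agent.H27.RC.AsmAux
import Pool.Agent.H27.RC.Asm
import Pool.Agent.H27.RC.Asm2

/-!
Project RC, module ASM, part 3: the theorem.
-/

open scoped ENNReal NNReal InnerProductSpace ComplexOrder
open Filter Topology

noncomputable section

namespace Pool.Agent.H27.RC

theorem chiZero_continuous {X : Type} [TopologicalSpace X] {β : X → ℝ} (hβ : Continuous β) :
    Continuous (chiZero β) := by
  unfold chiZero; fun_prop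

theorem chiZero_nonneg {X : Type} (β : X → ℝ) (x : X) : 0 ≤ chiZero β x := le_max_left _ _

theorem chiZero_le_one {X : Type} {β : X → ℝ} (hβ : ∀ x, 0 ≤ β x ∧ β x ≤ 1) (x : X) :
    chiZero β x ≤ 1 := by
  unfold chiZero
  exact max_le zero_le_one (by linarith [(hβ x).2])

theorem chiZero_zero {X : Type} {β : X → ℝ} {x : X} (hβ : β x = 0) : chiZero β x = 0 := by
  unfold chiZero; rw [hβ]; simp

/-- real scalar multiples in inner products -/
theorem inner_real_smul_apply {E : Type} [NormedAddCommGroup E] [InnerProductSpace ℂ E]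
    (γ : ℝ) (F : E →L[ℂ] E) (u v : E) : ⟪u, (γ • F) v⟫_ℂ = (γ : ℂ) * ⟪u, F v⟫_ℂ := by
  have : (γ • F) v = (γ : ℂ) • F v := by rw [smul_apply]; rfl
  rw [this, inner_smul_right]

theorem real_smul_apply' {E : Type} [NormedAddCommGroup E] [InnerProductSpace ℂ E]
    (γ : ℝ) (F : E →L[ℂ] E) (v : E) : (γ • F) v = (γ : ℂ) • F v := by
  rw [smul_apply]; rfl

theorem rsmul_eq {E : Type} [NormedAddCommGroup E] [InnerProductSpace ℂ E] (c : ℝ)
    (F : E →L[ℂ] E) : c • F = (c : ℂ) • F := by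
  ext v; rw [real_smul_apply', smul_apply]

theorem star_rsmul_clm {E : Type} [NormedAddCommGroup E] [InnerProductSpace ℂ E]
    [CompleteSpace E] (c : ℝ) (F : E →L[ℂ] E) : star (c • F) = c • star F := by
  rw [rsmul_eq, rsmul_eq, star_smul]
  simp

theorem smul_smul_clm {E : Type} [NormedAddCommGroup E] [InnerProductSpace ℂ E] (c d : ℝ)
    (F : E →L[ℂ] E) : c • d • F = (c * d) • F := by
  ext v
  simp only [real_smul_apply']
  push_cast
  rw [smul_smul]

theorem one_smul_clm {E : Type} [NormedAddCommGroup E] [InnerProductSpace ℂ E]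
    (F : E →L[ℂ] E) : (1 : ℝ) • F = F := by
  ext v
  simp only [real_smul_apply']
  simp

theorem neg_one_smul_clm {E : Type} [NormedAddCommGroup E] [InnerProductSpace ℂ E]
    (F : E →L[ℂ] E) : (-1 : ℝ) • F = -F := by
  ext v
  simp only [real_smul_apply']
  simp

theorem add_smul_clm {E : Type} [NormedAddCommGroup E] [InnerProductSpace ℂ E] (c d : ℝ)
    (F : E →L[ℂ] E) : (c + d) • F = c • F + d • F := by
  ext v
  simp only [real_smul_apply', add_apply]
  push_cast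
  rw [add_smul]

theorem smul_add_clm {E : Type} [NormedAddCommGroup E] [InnerProductSpace ℂ E] (c : ℝ)
    (F G : E →L[ℂ] E) : c • (F + G) = c • F + c • G := by
  ext v
  simp only [real_smul_apply', add_apply, smul_add]

theorem mul_rsmul_clm {E : Type} [NormedAddCommGroup E] [InnerProductSpace ℂ E]
    (c : ℝ) (F G : E →L[ℂ] E) : F * (c • G) = c • (F * G) := by
  ext v
  rw [mul_apply_eq_comp, real_smul_apply', real_smul_apply', map_smul, mul_apply_eq_comp]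

theorem rsmul_mul_clm {E : Type} [NormedAddCommGroup E] [InnerProductSpace ℂ E]
    (c : ℝ) (F G : E →L[ℂ] E) : (c • F) * G = c • (F * G) := by
  ext v
  rw [mul_apply_eq_comp, real_smul_apply', real_smul_apply', mul_apply_eq_comp]

theorem smul_le_smul_clm {E : Type} [NormedAddCommGroup E] [InnerProductSpace ℂ E]
    [CompleteSpace E] {F G : E →L[ℂ] E} (hFG : F ≤ G) {c : ℝ} (hc : 0 ≤ c) : c • F ≤ c • G :=
  smul_le_smul_of_nonneg_left hFG hc

theorem smul_le_smul_clm_right {E : Type} [NormedAddCommGroup E] [InnerProductSpace ℂ E]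
    [CompleteSpace E] {F : E →L[ℂ] E} (hF : 0 ≤ F) {c d : ℝ} (hcd : c ≤ d) : c • F ≤ d • F := by
  rw [← sub_nonneg]
  have h1 : d • F - c • F = (d - c) • F := by
    ext v
    simp only [sub_apply, real_smul_apply']
    push_cast
    rw [sub_smul]
  rw [h1]
  have h2 := smul_le_smul_clm hF (sub_nonneg.2 hcd)
  refine le_trans (le_of_eq ?_) h2
  ext v; simp

/-- `D ≤ κ + η` in the window -/
theorem window_upper {ℓ n M₀ : ℕ} {A W g : EE ℓ n →L[ℂ] EE ℓ n} {κ η χ : ℝ} (hκ : 0 ≤ κ)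
    (hη : 0 ≤ η) (hχ0 : 0 ≤ χ) (hχ1 : χ ≤ 1) (h3 : W ≤ A + η • 1) (h4 : A ≤ g * g + κ • 1)
    (hlW : lev ℓ n M₀ * W = W) (hWl : W * lev ℓ n M₀ = W) :
    (χ • lev ℓ n M₀) * W * (χ • lev ℓ n M₀) + (-1 : ℝ) • (χ ^ 2 • (g * g)) ≤
      (κ + η) • (1 : EE ℓ n →L[ℂ] EE ℓ n) := by
  have hone : (0 : EE ℓ n →L[ℂ] EE ℓ n) ≤ 1 := by
    have := star_mul_self_nonneg (1 : EE ℓ n →L[ℂ] EE ℓ n)
    simpa using this
  have h2 : (χ • lev ℓ n M₀) * W * (χ • lev ℓ n M₀) = χ ^ 2 • W := by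
    rw [rsmul_mul_clm, hlW, rsmul_mul_clm, mul_rsmul_clm, hWl, smul_smul_clm, sq]
  have h5 : W ≤ g * g + (κ + η) • (1 : EE ℓ n →L[ℂ] EE ℓ n) := by
    refine h3.trans ((add_le_add_left h4 _).trans (le_of_eq ?_))
    rw [add_assoc, ← add_smul_clm]
  have h6 := smul_le_smul_clm h5 (sq_nonneg χ)
  rw [h2, neg_one_smul_clm, ← sub_eq_add_neg, sub_le_iff_le_add]
  refine h6.trans ?_
  rw [smul_add_clm, add_comm]
  refine add_le_add_left ?_ _
  rw [smul_smul_clm]
  refine smul_le_smul_clm_right hone ?_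
  have h8 : 0 ≤ κ + η := by positivity
  have : χ ^ 2 ≤ 1 := by nlinarith
  nlinarith

theorem lev_sq_le {ℓ n M₀ : ℕ} {χ : ℝ} (hχ0 : 0 ≤ χ) (hχ1 : χ ≤ 1) :
    (χ • lev ℓ n M₀) * (χ • lev ℓ n M₀) ≤ (1 : ℝ) • (1 : EE ℓ n →L[ℂ] EE ℓ n) := by
  have h2 : (χ • lev ℓ n M₀) * (χ • lev ℓ n M₀) = χ ^ 2 • lev ℓ n M₀ := by
    rw [rsmul_mul_clm, mul_rsmul_clm, lev_mul_lev, smul_smul_clm, sq]
  rw [h2, one_smul_clm]
  have h3 : χ ^ 2 ≤ 1 := by nlinarith
  refine (smul_le_smul_clm_right (lev_nonneg M₀) h3).trans ?_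
  rw [one_smul_clm]
  exact lev_le_one M₀

/-- the sum of the tower functions is continuous -/
theorem fOut_continuous {X : Type} [TopologicalSpace X] (h : X ≃ₜ X) (ℓ M₀ : ℕ) {β : X → ℝ}
    (hβ : Continuous β) : Continuous (fOut h ℓ M₀ β) := by
  unfold fOut
  refine continuous_const.sub (continuous_finsetSum _ (fun i _ => ?_))
  exact (chiZero_continuous hβ).comp (h ^ (-(i : ℤ))).continuous

theorem omJ_continuous {X : Type} [TopologicalSpace X] (h : X ≃ₜ X) (s' j : ℕ) {β : X → ℝ}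
    (hβ : Continuous β) : Continuous (omJ h s' β j) := by
  unfold omJ
  refine continuous_finsetSum _ (fun i _ => ?_)
  exact (chiZero_continuous hβ).comp (h ^ (-(i : ℤ))).continuous

theorem sum_blocks (s' : ℕ) (F : ℕ → ℝ) (J : ℕ) :
    ∑ j ∈ Finset.range J, ∑ i ∈ Finset.Ico (j * s') ((j + 1) * s'), F i =
      ∑ i ∈ Finset.range (J * s'), F i := by
  induction J with
  | zero => simp
  | succ J ih =>
    rw [Finset.sum_range_succ, ih, Finset.range_eq_Ico, Finset.range_eq_Ico,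
      Finset.sum_Ico_consecutive _ (Nat.zero_le _) (by nlinarith)]

theorem sum_fin_ite {ℓ : ℕ} (P : ℕ → Prop) [DecidablePred P] (F : ℕ → ℝ) :
    ∑ i : Fin ℓ, (if P (i : ℕ) then F (i : ℕ) else 0) =
      ∑ i ∈ (Finset.range ℓ).filter P, F i := by
  rw [Finset.sum_filter, Finset.sum_range]

theorem asm (hWIN : WINStmt) (hURP : URPStmt) (hCOS : COSStmt) (hCNT : CNTStmt)
    (hBLK : BLKStmt) (hMB : MBStmt) (hLA : LAStmt) : ASMStmt := by
  intro X _ _ _ h hM n 𝒜 _ _ _ M hn a b ha ha1 hb hb1 r ν κ m N₀ hr hν hν1 hκ hm hmd hav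
  obtain ⟨ε, hε, hW⟩ := hWIN X h n 𝒜 M a b ha ha1 hb hb1 r ν κ m N₀ hr hν hν1 hκ hm hmd hav
  set η : ℝ := min κ (ε / 8) with hηdef
  have hη0 : 0 < η := lt_min hκ (by linarith)
  have hηκ : η ≤ κ := min_le_left _ _
  have hηε : η ≤ ε / 8 := min_le_right _ _
  obtain ⟨a₁, b₁, M₀, ha₁, hb₁, haa, hbb, hBa, hBb, hL⟩ := hW η hη0
  obtain ⟨ℓ₀, hℓ₀⟩ := exists_nat_ge ((4 * M₀ + 4) * (32 * n) / ν)
  obtain ⟨ℓ, hℓ, s, hsℓ, hνs, A, B, hcA, hcB, hA0, hB0, hAw, hBw, hlA, hlB, z₁, z₀, c, hc, hz⟩ :=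
    hL (ℓ₀ + 1)
  have hℓ1 : 1 ≤ ℓ := by omega
  have hn' : (0 : ℝ) < n := by exact_mod_cast hn
  -- the size of s'
  set s' : ℕ := s / (2 * n) with hs'def
  have hs'1 : 4 * M₀ + 3 ≤ s' := by
    have h1 : (4 * M₀ + 4) * (32 * n) ≤ ν * ℓ := by
      rw [div_le_iff₀ hν] at hℓ₀
      have : (ℓ₀ : ℝ) ≤ ℓ := by exact_mod_cast (by omega : ℓ₀ ≤ ℓ)
      nlinarith
    have h2 : ((4 * M₀ + 4) * (2 * n) : ℝ) ≤ s := by
      have h3 : ((4 * M₀ + 4) * (32 * n) : ℝ) ≤ 16 * s := h1.trans hνs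
      linarith
    have h3 : (4 * M₀ + 4) * (2 * n) ≤ s := by exact_mod_cast h2
    have h4 : 4 * M₀ + 4 ≤ s / (2 * n) := (Nat.le_div_iff_mul_le (by omega)).2 h3
    omega
  have hJ : 2 * n * s' ≤ s := Nat.mul_div_le s (2 * n)
  have hJℓ : 2 * n * s' ≤ ℓ := hJ.trans hsℓ
  obtain ⟨β, hβc, hβ01, hβd, hβN⟩ := hURP X h hM ℓ (1 / (2 * ℓ)) hℓ1 (by positivity)
  obtain ⟨hf01, hω01, hωd, hωsq, N₂, hcount⟩ :=
    hCNT X h ℓ M₀ s' (2 * n) β hℓ1 hJℓ hs'1 hβc hβ01 hβd hβN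
  obtain ⟨T, hadd, hsmul, hmul, hstar, hle, hwin, hpos, hdiag⟩ := hBLK X h n 𝒜 M ℓ β hβc hβd
  have hχc : Continuous (chiZero β) := chiZero_continuous hβc
  have hχ0 := chiZero_nonneg β
  have hχ1 := chiZero_le_one hβ01
  -- comparison of the outer part
  obtain ⟨t, C, hC, ht⟩ := hCOS X h hM n 𝒜 M hn (fun x => fOut h ℓ M₀ β x ^ 2)
    (fun j x => omJ h s' β j x) ((fOut_continuous h ℓ M₀ hβc).pow 2)
    (fun x => ⟨sq_nonneg _, by
      have := hf01 x
      nlinarith⟩)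
    (fun j => omJ_continuous h s' j hβc)
    (fun j x => hω01 j x j.2)
    (fun i j x hij => hωd i j x i.2 j.2 (fun h2 => hij (Fin.ext h2)))
    ⟨N₂, fun N hN x j => hcount N hN x j j.2⟩ κ hκ
  -- the operator families
  set g₂ : X → (EE ℓ n →L[ℂ] EE ℓ n) := fun x => cfc (gTwo ε) (B x) with hg₂
  set g₁ : X → (EE ℓ n →L[ℂ] EE ℓ n) := fun x => cfc (gOne κ) (A x) with hg₁
  have hg₂c : Continuous g₂ := continuous_cfc_family _ (gTwo_continuous ε) B hcB hB0
  have hg₁c : Continuous g₁ := continuous_cfc_family _ (gOne_continuous κ) A hcA hA0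
  set J : EE ℓ n →L[ℂ] EuclideanSpace ℂ (Fin s) := Js hn s hsℓ with hJdef
  set zJ : EE ℓ n →L[ℂ] EE ℓ n := z₀ ∘L J with hzJ
  set V₁ : X → (EE ℓ n →L[ℂ] EE ℓ n) := fun x => chiZero β x • (g₂ x * z₁ * g₁ x) with hV₁
  set V₀ : X → (EE ℓ n →L[ℂ] EE ℓ n) := fun x => chiZero β x • (g₂ x * zJ) with hV₀
  set G : X → (EE ℓ n →L[ℂ] EE ℓ n) := fun x => (chiZero β x) ^ 2 • (g₁ x * g₁ x) with hG
  set Ψ : X → (EE ℓ n →L[ℂ] EE ℓ n) :=
    fun x => (chiZero β x) ^ 2 • (ContinuousLinearMap.adjoint J ∘L J) with hΨ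
  set Lv : X → (EE ℓ n →L[ℂ] EE ℓ n) := fun x => chiZero β x • lev ℓ n M₀ with hLv
  have hAdm : ∀ (p : ℕ) (F : X → (EE ℓ n →L[ℂ] EE ℓ n)), Continuous F → p ≠ 0 →
      Adm β (fun x => (chiZero β x) ^ p • F x) := by
    intro p F hF hp
    refine ⟨(hχc.pow p).smul hF, fun x hx => ?_⟩
    change (chiZero β x) ^ p • F x = 0
    rw [chiZero_zero hx, zero_pow hp]
    ext v
    simp
  have hAdm1 : ∀ (F : X → (EE ℓ n →L[ℂ] EE ℓ n)), Continuous F →
      Adm β (fun x => chiZero β x • F x) := by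
    intro F hF
    have := hAdm 1 F hF one_ne_zero
    simpa using this
  have aV₁ : Adm β V₁ := hAdm1 _ ((hg₂c.mul continuous_const).mul hg₁c)
  have aV₀ : Adm β V₀ := hAdm1 _ (hg₂c.mul continuous_const)
  have aG : Adm β G := hAdm 2 _ (hg₁c.mul hg₁c) two_ne_zero
  have aΨ : Adm β Ψ := hAdm 2 _ continuous_const two_ne_zero
  have aLv : Adm β Lv := hAdm1 _ continuous_const
  -- the range of g₂ is in the levels
  have hlg : ∀ x, lev ℓ n M₀ * g₂ x = g₂ x := by
    intro x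
    have hsa : IsSelfAdjoint (B x) := IsSelfAdjoint.of_nonneg (hB0 x)
    obtain ⟨f', hf'c, hf'⟩ : ∃ f' : ℝ → ℝ, Continuous f' ∧ ∀ t, gTwo ε t = t * f' t := by
      refine ⟨fun t => gTwo ε t * (max (ε / 2) t)⁻¹, ?_, fun t => ?_⟩
      · refine (gTwo_continuous ε).mul (Continuous.inv₀ (by fun_prop) (fun t => ?_))
        have : ε / 2 ≤ max (ε / 2) t := le_max_left _ _
        have h5 : 0 < ε / 2 := by linarith
        linarith
      · change gTwo ε t = t * (gTwo ε t * (max (ε / 2) t)⁻¹)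
        rcases lt_or_ge t (ε / 2) with h5 | h5
        · rw [gTwo_eq_zero hε h5]; ring
        · rw [max_eq_right h5]
          have : t ≠ 0 := by linarith
          field_simp
    have h1 : g₂ x = B x * cfc f' (B x) := by
      rw [hg₂]
      simp only
      have h6 : cfc (gTwo ε) (B x) = cfc (fun t => id t * f' t) (B x) := by
        congr 1; funext t; exact hf' t
      rw [h6, cfc_mul id f' (B x) continuous_id.continuousOn hf'c.continuousOn, cfc_id ℝ (B x)]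
    rw [h1, ← mul_assoc, hlB x]
  have hlV₁ : ∀ x, lev ℓ n M₀ * V₁ x = V₁ x := by
    intro x
    rw [hV₁]
    simp only
    rw [mul_rsmul_clm, ← mul_assoc, ← mul_assoc, hlg x]
  have hlV₀ : ∀ x, lev ℓ n M₀ * V₀ x = V₀ x := by
    intro x
    rw [hV₀]
    simp only
    rw [mul_rsmul_clm, ← mul_assoc, hlg x]
  -- values of V₁ u + V₀ w
  have hζ : ∀ (x : X) (u w : EE ℓ n), V₁ x u + V₀ x w =
      ((chiZero β x : ℝ) : ℂ) • g₂ x (z₁ (g₁ x u) + z₀ (J w)) := by
    intro x u w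
    rw [hV₁, hV₀]
    simp only
    rw [real_smul_apply', real_smul_apply', ← smul_add]
    congr 1
    simp only [mul_apply_eq_comp, map_add]
    rfl
  have hest : ∀ (x : X) (u w : EE ℓ n),
      (3 * ε / 8) * ‖V₁ x u + V₀ x w‖ ^ 2 ≤
        (⟪V₁ x u + V₀ x w, win ℓ M₀ (M.fib x b₁) (V₁ x u + V₀ x w)⟫_ℂ).re ∧
      c * ((chiZero β x) ^ 2 * (‖g₁ x u‖ ^ 2 + ‖J w‖ ^ 2)) ≤ ‖V₁ x u + V₀ x w‖ ^ 2 := by
    intro x u w
    exact window_estimate (M₀ := M₀) hLA hε hη0.le hηε hc hκ (hA0 x) (hB0 x) (hBw x) z₁ z₀ (hz x)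
      (chiZero β x) u (J w) _ (hζ x u w)
  have him : ∀ (x : X) (ζ : EE ℓ n), (⟪ζ, win ℓ M₀ (M.fib x b₁) ζ⟫_ℂ).im = 0 := by
    intro x ζ
    have h1 : 0 ≤ win ℓ M₀ (M.fib x b₁) := win_nonneg M₀ (map_nonneg _ hb₁)
    rw [ContinuousLinearMap.nonneg_iff_isPositive] at h1
    have h2 := h1.inner_nonneg_right ζ
    exact ((Complex.nonneg_iff).1 h2).2.symm
  set γ : ℝ := 3 * ε / 8 * c with hγ
  have hγ0 : 0 < γ := by positivity
  set t' : 𝒜 := Real.sqrt (C + 1) • t with ht'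
  set S : 𝒜 := T V₁ + T V₀ * t' with hS
  -- first lower bound
  have low1 : γ • (T G + star t' * T Ψ * t') ≤ star S * b₁ * S := by
    refine lower_general M hMB T hadd hsmul hstar b₁ hBb hwin hpos V₁ V₀ G Ψ aV₁ aV₀ aG aΨ
      hlV₁ hlV₀ γ t' ?_
    intro x u w
    have e1 : ⟪u, G x u⟫_ℂ = (((chiZero β x) ^ 2 * ‖g₁ x u‖ ^ 2 : ℝ) : ℂ) := by
      rw [hG]
      simp only
      rw [inner_real_smul_apply, mul_apply_eq_comp]
      have h5 : star (g₁ x) = g₁ x := isSelfAdjoint_cfc _ _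
      have h6 : ⟪u, g₁ x (g₁ x u)⟫_ℂ = ⟪g₁ x u, g₁ x u⟫_ℂ := by
        conv_lhs => rw [← h5, ContinuousLinearMap.star_eq_adjoint,
          ContinuousLinearMap.adjoint_inner_right, ← ContinuousLinearMap.star_eq_adjoint, h5]
      rw [h6, inner_self_eq_norm_sq_to_K]
      push_cast
      rfl
    have e2 : ⟪w, Ψ x w⟫_ℂ = (((chiZero β x) ^ 2 * ‖J w‖ ^ 2 : ℝ) : ℂ) := by
      rw [hΨ]
      simp only
      rw [inner_real_smul_apply, ContinuousLinearMap.comp_apply,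
        ContinuousLinearMap.adjoint_inner_right, inner_self_eq_norm_sq_to_K]
      push_cast
      rfl
    obtain ⟨h7, h8⟩ := hest x u w
    rw [e1, e2]
    rw [Complex.le_def]
    constructor
    · have : ((γ : ℂ) * ((((chiZero β x) ^ 2 * ‖g₁ x u‖ ^ 2 : ℝ) : ℂ) +
          (((chiZero β x) ^ 2 * ‖J w‖ ^ 2 : ℝ) : ℂ))).re =
          γ * ((chiZero β x) ^ 2 * (‖g₁ x u‖ ^ 2 + ‖J w‖ ^ 2)) := by
        rw [← Complex.ofReal_add, ← Complex.ofReal_mul, Complex.ofReal_re]; ring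
      rw [this]
      refine le_trans ?_ h7
      rw [hγ]
      have := mul_le_mul_of_nonneg_left h8 (by positivity : 0 ≤ 3 * ε / 8)
      linarith
    · rw [him x]
      rw [← Complex.ofReal_add, ← Complex.ofReal_mul, Complex.ofReal_im]
  -- second lower bound
  have low2 : (3 * ε / 8) • (star S * S) ≤ star S * b₁ * S := by
    have hst : ∀ V : X → (EE ℓ n →L[ℂ] EE ℓ n), Adm β V → Adm β (fun x => star (V x)) := by
      intro V h1
      exact ⟨continuous_star_clm.comp h1.1, fun x hx => by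
        change star (V x) = 0
        rw [h1.2 x hx]; exact star_zero (EE ℓ n →L[ℂ] EE ℓ n)⟩
    have hWc : Continuous fun x => win ℓ M₀ (M.fib x b₁) := continuous_win M hMB ℓ M₀ b₁
    have hadm : ∀ V V' : X → (EE ℓ n →L[ℂ] EE ℓ n), Adm β V → Adm β V' →
        Adm β (fun x => star (V x) * win ℓ M₀ (M.fib x b₁) * V' x) := by
      intro V V' h1 h2
      exact ⟨((continuous_star_clm.comp h1.1).mul hWc).mul h2.1, fun x hx => by
        change _ * V' x = 0
        rw [h2.2 x hx, mul_zero]⟩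
    have hadm' : ∀ V V' : X → (EE ℓ n →L[ℂ] EE ℓ n), Adm β V → Adm β V' → ∀ c : ℝ,
        Adm β (fun x => c • (star (V x) * V' x)) := by
      intro V V' h1 h2 c
      refine ⟨(((continuous_star_clm.comp h1.1).mul h2.1).const_smul c), fun x hx => ?_⟩
      change c • (star (V x) * V' x) = 0
      rw [h2.2 x hx, mul_zero]
      ext v; simp
    have hadm'' : ∀ V V' : X → (EE ℓ n →L[ℂ] EE ℓ n), Adm β V → Adm β V' →
        Adm β (fun x => star (V x) * V' x) := by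
      intro V V' h1 h2
      refine ⟨((continuous_star_clm.comp h1.1).mul h2.1), fun x hx => ?_⟩
      change star (V x) * V' x = 0
      rw [h2.2 x hx, mul_zero]
    have hadma : ∀ V V' : X → (EE ℓ n →L[ℂ] EE ℓ n), Adm β V → Adm β V' →
        Adm β (fun x => V x + V' x) := by
      intro V V' h1 h2
      exact ⟨h1.1.add h2.1, fun x hx => by
        change V x + V' x = 0
        rw [h1.2 x hx, h2.2 x hx, add_zero]⟩
    have hls : ∀ V : X → (EE ℓ n →L[ℂ] EE ℓ n), (∀ x, lev ℓ n M₀ * V x = V x) →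
        ∀ x, star (V x) * lev ℓ n M₀ = star (V x) := by
      intro V h1 x
      have := congrArg star (h1 x)
      rw [star_mul, star_lev] at this
      exact this
    have hprod : ∀ V V' : X → (EE ℓ n →L[ℂ] EE ℓ n), Adm β V → Adm β V' →
        (∀ x, lev ℓ n M₀ * V x = V x) → (∀ x, lev ℓ n M₀ * V' x = V' x) →
        star (T V) * b₁ * T V' = T (fun x => star (V x) * win ℓ M₀ (M.fib x b₁) * V' x) := by
      intro V V' h1 h2 h3 h4
      rw [← hstar V h1]
      exact hwin b₁ M₀ hBb _ _ (hst V h1) h2 (hls V h3) h4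
    have hprod' : ∀ V V' : X → (EE ℓ n →L[ℂ] EE ℓ n), Adm β V → Adm β V' →
        star (T V) * T V' = T (fun x => star (V x) * V' x) := by
      intro V V' h1 h2
      rw [← hstar V h1, hmul _ _ (hst V h1) h2]
    set δ : ℝ := -(3 * ε / 8) with hδ
    have hp := hpos
      (fun x => star (V₁ x) * win ℓ M₀ (M.fib x b₁) * V₁ x + δ • (star (V₁ x) * V₁ x))
      (fun x => star (V₁ x) * win ℓ M₀ (M.fib x b₁) * V₀ x + δ • (star (V₁ x) * V₀ x))
      (fun x => star (V₀ x) * win ℓ M₀ (M.fib x b₁) * V₁ x + δ • (star (V₀ x) * V₁ x))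
      (fun x => star (V₀ x) * win ℓ M₀ (M.fib x b₁) * V₀ x + δ • (star (V₀ x) * V₀ x)) t'
      (hadma _ _ (hadm _ _ aV₁ aV₁) (hadm' _ _ aV₁ aV₁ _))
      (hadma _ _ (hadm _ _ aV₁ aV₀) (hadm' _ _ aV₁ aV₀ _))
      (hadma _ _ (hadm _ _ aV₀ aV₁) (hadm' _ _ aV₀ aV₁ _))
      (hadma _ _ (hadm _ _ aV₀ aV₀) (hadm' _ _ aV₀ aV₀ _)) (by
        intro x u w
        have q1 := quad_expand (V₁ x) (V₀ x) (win ℓ M₀ (M.fib x b₁)) u w
        have q2 := quad_expand (V₁ x) (V₀ x) (1 : EE ℓ n →L[ℂ] EE ℓ n) u w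
        simp only [mul_one, one_apply_eq_self] at q2
        simp only [add_apply, inner_add_right, inner_real_smul_apply]
        have q3 : ⟪u, (star (V₁ x) * win ℓ M₀ (M.fib x b₁) * V₁ x) u⟫_ℂ +
            (δ : ℂ) * ⟪u, (star (V₁ x) * V₁ x) u⟫_ℂ +
            (⟪u, (star (V₁ x) * win ℓ M₀ (M.fib x b₁) * V₀ x) w⟫_ℂ +
            (δ : ℂ) * ⟪u, (star (V₁ x) * V₀ x) w⟫_ℂ) +
            (⟪w, (star (V₀ x) * win ℓ M₀ (M.fib x b₁) * V₁ x) u⟫_ℂ +
            (δ : ℂ) * ⟪w, (star (V₀ x) * V₁ x) u⟫_ℂ) +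
            (⟪w, (star (V₀ x) * win ℓ M₀ (M.fib x b₁) * V₀ x) w⟫_ℂ +
            (δ : ℂ) * ⟪w, (star (V₀ x) * V₀ x) w⟫_ℂ) =
            ⟪V₁ x u + V₀ x w, win ℓ M₀ (M.fib x b₁) (V₁ x u + V₀ x w)⟫_ℂ +
            (δ : ℂ) * ⟪V₁ x u + V₀ x w, V₁ x u + V₀ x w⟫_ℂ := by
          rw [← q1, ← q2]; ring
        rw [q3, inner_self_eq_norm_sq_to_K, Complex.nonneg_iff]
        obtain ⟨h7, -⟩ := hest x u w
        constructor
        · have : (⟪V₁ x u + V₀ x w, win ℓ M₀ (M.fib x b₁) (V₁ x u + V₀ x w)⟫_ℂ +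
              (δ : ℂ) * ((‖V₁ x u + V₀ x w‖ : ℂ)) ^ 2).re =
              (⟪V₁ x u + V₀ x w, win ℓ M₀ (M.fib x b₁) (V₁ x u + V₀ x w)⟫_ℂ).re +
              δ * ‖V₁ x u + V₀ x w‖ ^ 2 := by
            rw [Complex.add_re, ← Complex.ofReal_pow, ← Complex.ofReal_mul, Complex.ofReal_re]
          refine le_of_le_of_eq ?_ this.symm
          rw [hδ]; linarith
        · have : (⟪V₁ x u + V₀ x w, win ℓ M₀ (M.fib x b₁) (V₁ x u + V₀ x w)⟫_ℂ +
              (δ : ℂ) * ((‖V₁ x u + V₀ x w‖ : ℂ)) ^ 2).im =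
              (⟪V₁ x u + V₀ x w, win ℓ M₀ (M.fib x b₁) (V₁ x u + V₀ x w)⟫_ℂ).im := by
            rw [Complex.add_im, ← Complex.ofReal_pow, ← Complex.ofReal_mul, Complex.ofReal_im,
              add_zero]
          rw [him x] at this
          exact this.symm)
    rw [hadd _ _ (hadm _ _ aV₁ aV₁) (hadm' _ _ aV₁ aV₁ _),
      hadd _ _ (hadm _ _ aV₁ aV₀) (hadm' _ _ aV₁ aV₀ _),
      hadd _ _ (hadm _ _ aV₀ aV₁) (hadm' _ _ aV₀ aV₁ _),
      hadd _ _ (hadm _ _ aV₀ aV₀) (hadm' _ _ aV₀ aV₀ _),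
      hsmul _ _ (hadm'' _ _ aV₁ aV₁), hsmul _ _ (hadm'' _ _ aV₁ aV₀),
      hsmul _ _ (hadm'' _ _ aV₀ aV₁), hsmul _ _ (hadm'' _ _ aV₀ aV₀),
      ← hprod V₁ V₁ aV₁ aV₁ hlV₁ hlV₁, ← hprod V₁ V₀ aV₁ aV₀ hlV₁ hlV₀,
      ← hprod V₀ V₁ aV₀ aV₁ hlV₀ hlV₁, ← hprod V₀ V₀ aV₀ aV₀ hlV₀ hlV₀,
      ← hprod' V₁ V₁ aV₁ aV₁, ← hprod' V₁ V₀ aV₁ aV₀,
      ← hprod' V₀ V₁ aV₀ aV₁, ← hprod' V₀ V₀ aV₀ aV₀] at hp
    rw [← sub_nonneg]
    refine hp.trans (le_of_eq ?_)
    rw [hS, star_add, star_mul, hδ]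
    simp only [mul_add, add_mul, neg_smul, smul_add, mul_neg, neg_mul, mul_smul_comm,
      smul_mul_assoc, mul_assoc]
    abel
  -- comparison of b₁ and b on the range of S
  have hb₁b : b₁ ≤ b + η • (1 : 𝒜) :=
    le_of_norm_sub_le (IsSelfAdjoint.of_nonneg hb₁) (IsSelfAdjoint.of_nonneg hb)
      (by rw [norm_sub_rev]; exact hbb)
  have hSS : 0 ≤ star S * S := star_mul_self_nonneg S
  have up1 : star S * b₁ * S ≤ (3 / 2 : ℝ) • (star S * b * S) := by
    have h1 := star_left_conjugate_le_conjugate hb₁b S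
    have h2 : star S * (b + η • (1 : 𝒜)) * S = star S * b * S + η • (star S * S) := by
      simp only [mul_add, add_mul, mul_smul_comm, smul_mul_assoc, mul_one]
    rw [h2] at h1
    have h3 : η • (star S * S) ≤ (ε / 8) • (star S * S) := smul_le_smul_of_nonneg_right hηε hSS
    have h4 : (ε / 8) • (star S * S) ≤ (1 / 3 : ℝ) • (star S * b₁ * S) := by
      have := smul_le_smul_of_nonneg_left low2 (by norm_num : (0 : ℝ) ≤ 1 / 3)
      rw [smul_smul] at this
      have h5 : (1 / 3 : ℝ) * (3 * ε / 8) = ε / 8 := by ring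
      rw [h5] at this
      exact this
    have h6 : star S * b₁ * S ≤ star S * b * S + (1 / 3 : ℝ) • (star S * b₁ * S) :=
      h1.trans (add_le_add_right (h3.trans h4) _)
    have h7 : (2 / 3 : ℝ) • (star S * b₁ * S) ≤ star S * b * S := by
      have h8 : (2 / 3 : ℝ) • (star S * b₁ * S) =
          star S * b₁ * S - (1 / 3 : ℝ) • (star S * b₁ * S) := by
        rw [eq_sub_iff_add_eq, ← add_smul]; norm_num
      rw [h8, sub_le_iff_le_add]
      exact h6
    have h9 := smul_le_smul_of_nonneg_left h7 (by norm_num : (0 : ℝ) ≤ 3 / 2)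
    rw [smul_smul] at h9
    norm_num at h9
    exact h9
  -- the cut-off element
  set chi : 𝒜 := T Lv with hchi
  have hLvstar : ∀ x, star (Lv x) = Lv x := by
    intro x
    have : star (Lv x) = chiZero β x • star (lev ℓ n M₀) := by
      rw [hLv]
      simp only
      rw [star_rsmul_clm]
    rw [this, star_lev]
  have hchisa : IsSelfAdjoint chi := by
    change star chi = chi
    rw [hchi, ← hstar Lv aLv]
    congr 1
    funext x
    exact hLvstar x
  have hlevLv : ∀ x, lev ℓ n M₀ * Lv x = Lv x := by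
    intro x
    rw [hLv]
    simp only
    rw [mul_rsmul_clm, lev_mul_lev]
  have hLvlev : ∀ x, Lv x * lev ℓ n M₀ = Lv x := by
    intro x
    rw [hLv]
    simp only
    rw [rsmul_mul_clm, lev_mul_lev]
  have hchi2 : chi * chi ≤ 1 := by
    rw [hchi, ← hmul Lv Lv aLv aLv]
    have h1 := hle (fun x => Lv x * Lv x) (by
      refine ⟨aLv.1.mul aLv.1, fun x hx => ?_⟩
      change Lv x * Lv x = 0
      rw [aLv.2 x hx, mul_zero]) 1 zero_le_one (fun x => lev_sq_le (hχ0 x) (hχ1 x))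
    rwa [one_smul] at h1
  have hWac : Continuous fun x => win ℓ M₀ (M.fib x a₁) := continuous_win M hMB ℓ M₀ a₁
  have up2 : chi * a₁ * chi ≤ T G + (κ + η) • (1 : 𝒜) := by
    rw [hchi, hwin a₁ M₀ hBa Lv Lv aLv aLv hLvlev hlevLv]
    set D : X → (EE ℓ n →L[ℂ] EE ℓ n) :=
      fun x => Lv x * win ℓ M₀ (M.fib x a₁) * Lv x + (-1 : ℝ) • G x with hD
    have aD : Adm β D := by
      refine ⟨((aLv.1.mul hWac).mul aLv.1).add (aG.1.const_smul (-1 : ℝ)), fun x hx => ?_⟩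
      change Lv x * win ℓ M₀ (M.fib x a₁) * Lv x + (-1 : ℝ) • G x = 0
      rw [aLv.2 x hx, aG.2 x hx, mul_zero, zero_add, neg_one_smul_clm, neg_zero]
    have h1 : (fun x => Lv x * win ℓ M₀ (M.fib x a₁) * Lv x) = fun x => G x + D x := by
      funext x
      rw [hD]
      simp only
      rw [neg_one_smul_clm]; abel
    rw [h1, hadd G D aG aD]
    refine add_le_add_right (hle D aD (κ + η) (by positivity) (fun x => ?_)) _
    exact window_upper hκ.le hη0.le (hχ0 x) (hχ1 x)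
      (le_of_norm_sub_le (IsSelfAdjoint.of_nonneg (win_nonneg M₀ (map_nonneg _ ha₁)))
        (IsSelfAdjoint.of_nonneg (hA0 x)) (by rw [norm_sub_rev]; exact hAw x))
      (le_gOne_sq (A x) (hA0 x) κ hκ.le) (lev_mul_win M₀ _) (win_mul_lev M₀ _)
  have haa' : a ≤ a₁ + η • (1 : 𝒜) :=
    le_of_norm_sub_le (IsSelfAdjoint.of_nonneg ha) (IsSelfAdjoint.of_nonneg ha₁) haa
  have hone' : (0 : 𝒜) ≤ 1 := by
    have := star_mul_self_nonneg (1 : 𝒜)
    simpa using this
  have up3 : chi * a * chi ≤ T G + (κ + 2 * η) • (1 : 𝒜) := by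
    have h1 := star_left_conjugate_le_conjugate haa' chi
    rw [hchisa.star_eq] at h1
    refine h1.trans ?_
    have h2 : chi * (a₁ + η • (1 : 𝒜)) * chi = chi * a₁ * chi + η • (chi * chi) := by
      simp only [mul_add, add_mul, mul_smul_comm, smul_mul_assoc, mul_one]
    rw [h2]
    have h3 : η • (chi * chi) ≤ η • (1 : 𝒜) := smul_le_smul_of_nonneg_left hchi2 hη0.le
    refine (add_le_add up2 h3).trans (le_of_eq ?_)
    rw [add_assoc, ← add_smul]
    congr 2; ring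
  -- the outer part
  have hale : a ≤ 1 := by
    have h1 : a ≤ algebraMap ℝ 𝒜 ‖a‖ := (IsSelfAdjoint.of_nonneg ha).le_algebraMap_norm_self
    refine h1.trans ?_
    rw [Algebra.algebraMap_eq_smul_one]
    calc ‖a‖ • (1 : 𝒜) ≤ (1 : ℝ) • (1 : 𝒜) := smul_le_smul_of_nonneg_right ha1 hone'
      _ = 1 := one_smul _ _
  have h1chisa : IsSelfAdjoint (1 - chi) := (IsSelfAdjoint.one 𝒜).sub hchisa
  have up4 : (1 - chi) * a * (1 - chi) ≤ (1 - chi) * (1 - chi) := by
    have h1 := star_left_conjugate_le_conjugate hale (1 - chi)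
    rw [h1chisa.star_eq, mul_one] at h1
    exact h1
  have hdchi : IsDiag M chi (fun x _ => ∑ i ∈ (Finset.range ℓ).filter
      (fun i => M₀ ≤ i ∧ i + M₀ < ℓ), chiZero β ((h ^ (-(i : ℤ))) x)) := by
    obtain ⟨-, h1⟩ := hdiag (fun x i _ => if M₀ ≤ (i : ℕ) ∧ (i : ℕ) + M₀ < ℓ then chiZero β x else 0)
      (by
        refine continuous_pi (fun i => continuous_pi (fun _ => ?_))
        split_ifs
        · exact hχc
        · exact continuous_const)
      (fun x hx => by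
        funext i e
        rw [chiZero_zero hx]; simp) Lv
      (fun x v p => by
        rw [hLv]
        simp only
        rw [real_smul_apply', PiLp.smul_apply, lev_apply]
        split_ifs <;> simp)
    intro x p q
    rw [h1 x p q]
    congr 2
    congr 1
    exact sum_fin_ite (fun i => M₀ ≤ i ∧ i + M₀ < ℓ)
      (fun i => chiZero β ((h ^ (-(i : ℤ))) ((h ^ p.1) x)))
  have hdDf : IsDiag M ((1 - chi) * (1 - chi)) (fun x _ => fOut h ℓ M₀ β x ^ 2) := by
    have h1 := IsDiag.sub M (IsDiag.one M) hdchi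
    have h2 := IsDiag.mul M h1 h1
    intro x p q
    rw [h2 x p q]
    simp only [fOut, sq]
  obtain ⟨Dω, hDω⟩ := exists_isDiag M
    (fun x (e : Fin n) => if (e : ℕ) = 0 then ∑ j : Fin (2 * n), omJ h s' β j x ^ 2 else 0)
    (by
      refine continuous_pi (fun e => ?_)
      split_ifs
      · exact continuous_finsetSum _ (fun j _ => (omJ_continuous h s' j hβc).pow 2)
      · exact continuous_const)
  have hout := ht _ Dω hdDf hDω
  have hdΨ : IsDiag M (T Ψ) (fun x e => if (e : ℕ) = 0 then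
      ∑ i ∈ (Finset.range ℓ).filter (fun i => i < s), chiZero β ((h ^ (-(i : ℤ))) x) ^ 2
      else 0) := by
    obtain ⟨-, h1⟩ := hdiag (fun x i e => if (i : ℕ) < s ∧ (e : ℕ) = 0 then chiZero β x ^ 2 else 0)
      (by
        refine continuous_pi (fun i => continuous_pi (fun e => ?_))
        split_ifs
        · exact hχc.pow 2
        · exact continuous_const)
      (fun x hx => by
        funext i e
        rw [chiZero_zero hx]; simp) Ψ
      (fun x v p => by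
        rw [hΨ]
        simp only
        rw [real_smul_apply', PiLp.smul_apply, hJdef, JsJs_apply]
        split_ifs <;> simp)
    intro x p q
    rw [h1 x p q]
    by_cases hpq : p = q
    · rw [if_pos hpq, if_pos hpq]
      congr 1
      by_cases he : (p.2 : ℕ) = 0
      · simp only [he, and_true, if_true]
        exact sum_fin_ite (fun i => i < s)
          (fun i => chiZero β ((h ^ (-(i : ℤ))) ((h ^ p.1) x)) ^ 2)
      · simp [he]
    · rw [if_neg hpq, if_neg hpq]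
  have hΨω : Dω ≤ T Ψ := by
    rw [← sub_nonneg]
    refine isDiag_nonneg M hMB (IsDiag.sub M hdΨ hDω) (fun x e => ?_)
    by_cases he : (e : ℕ) = 0
    · simp only [he, if_true]
      rw [sub_nonneg]
      have h1 : ∑ j : Fin (2 * n), omJ h s' β (j : ℕ) x ^ 2 =
          ∑ i ∈ Finset.range (2 * n * s'), chiZero β ((h ^ (-(i : ℤ))) x) ^ 2 := by
        rw [← sum_blocks s' (fun i => chiZero β ((h ^ (-(i : ℤ))) x) ^ 2) (2 * n)]
        rw [Finset.sum_range (fun j => ∑ i ∈ Finset.Ico (j * s') ((j + 1) * s'),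
          chiZero β ((h ^ (-(i : ℤ))) x) ^ 2)]
        exact Finset.sum_congr rfl (fun j _ => hωsq j x j.2)
      rw [h1]
      refine Finset.sum_le_sum_of_subset_of_nonneg ?_ (fun i _ _ => sq_nonneg _)
      intro i hi
      rw [Finset.mem_range] at hi
      rw [Finset.mem_filter, Finset.mem_range]
      exact ⟨by omega, by omega⟩
    · simp [he]
  have hDω0 : 0 ≤ Dω := isDiag_nonneg M hMB hDω (fun x e => by
    split_ifs
    · exact Finset.sum_nonneg (fun j _ => sq_nonneg _)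
    · exact le_refl _)
  have hΨ0 : 0 ≤ T Ψ := hDω0.trans hΨω
  have ht'Ψ : star t' * T Ψ * t' = (C + 1) • (star t * T Ψ * t) := by
    rw [ht', star_smul]
    simp only [star_trivial, smul_mul_assoc, mul_smul_comm, smul_smul]
    rw [Real.mul_self_sqrt (by positivity)]
  have up5 : (1 - chi) * (1 - chi) ≤ star t' * T Ψ * t' + κ • (1 : 𝒜) := by
    refine hout.trans (add_le_add_left ?_ _)
    rw [ht'Ψ]
    have h1 : star t * Dω * t ≤ star t * T Ψ * t := star_left_conjugate_le_conjugate hΨω t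
    have h2 : 0 ≤ star t * T Ψ * t := star_left_conjugate_nonneg hΨ0 t
    calc C • (star t * Dω * t) ≤ C • (star t * T Ψ * t) := smul_le_smul_of_nonneg_left h1 hC
      _ ≤ (C + 1) • (star t * T Ψ * t) := smul_le_smul_of_nonneg_right (by linarith) h2
  -- the end
  refine ⟨Real.sqrt (3 / γ) • S, ?_⟩
  have h3γ : (0 : ℝ) ≤ 3 / γ := by positivity
  have hfin : star (Real.sqrt (3 / γ) • S) * b * (Real.sqrt (3 / γ) • S) =
      (3 / γ) • (star S * b * S) := by
    rw [star_smul]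
    simp only [star_trivial, smul_mul_assoc, mul_smul_comm, smul_smul]
    rw [Real.mul_self_sqrt h3γ]
  rw [hfin]
  have e1 : T G + star t' * T Ψ * t' ≤ (1 / γ) • (star S * b₁ * S) := by
    have := smul_le_smul_of_nonneg_left low1 (by positivity : (0 : ℝ) ≤ 1 / γ)
    rw [smul_smul, one_div_mul_cancel hγ0.ne', one_smul] at this
    exact this
  have e2 : (1 / γ) • (star S * b₁ * S) ≤ (1 / γ) • ((3 / 2 : ℝ) • (star S * b * S)) :=
    smul_le_smul_of_nonneg_left up1 (by positivity)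
  have e3 : (2 : ℝ) • (T G + star t' * T Ψ * t') ≤ (3 / γ) • (star S * b * S) := by
    have := smul_le_smul_of_nonneg_left (e1.trans e2) (by norm_num : (0 : ℝ) ≤ 2)
    refine this.trans (le_of_eq ?_)
    rw [smul_smul, smul_smul]
    congr 1
    field_simp
  calc a ≤ (2 : ℝ) • (chi * a * chi) + (2 : ℝ) • ((1 - chi) * a * (1 - chi)) :=
        split_le ha hchisa
    _ ≤ (2 : ℝ) • (T G + (κ + 2 * η) • (1 : 𝒜)) +
        (2 : ℝ) • (star t' * T Ψ * t' + κ • (1 : 𝒜)) :=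
        add_le_add (smul_le_smul_of_nonneg_left up3 (by norm_num))
          (smul_le_smul_of_nonneg_left (up4.trans up5) (by norm_num))
    _ = (2 : ℝ) • (T G + star t' * T Ψ * t') + (4 * κ + 4 * η) • (1 : 𝒜) := by
        simp only [smul_add, smul_smul]
        have : (4 * κ + 4 * η) • (1 : 𝒜) = (2 * (κ + 2 * η)) • (1 : 𝒜) + (2 * κ) • (1 : 𝒜) := by
          rw [← add_smul]; congr 1; ring
        rw [this]
        abel
    _ ≤ (3 / γ) • (star S * b * S) + (16 * κ) • (1 : 𝒜) := by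
        refine add_le_add e3 (smul_le_smul_of_nonneg_right ?_ hone')
        linarith

end Pool.Agent.H27.RC
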