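import Mathlib
import Pool.Agent.H27.RC.Stmts

/-!
Project RC, final assembly: the main theorem from the modules MK, R2, Q1, Q3, ASM.
-/

open scoped ENNReal NNReal InnerProductSpace ComplexOrder
open Filter Topology

noncomputable section

namespace Pool.Agent.H27.RC

/-- comparison in a model with `n > 0` -/
theorem model_comparison {X : Type} [TopologicalSpace X] [CompactSpace X] [T2Space X] [Nonempty X]
    (h : X ≃ₜ X) (hM : Marker h) (hQ1 : Q1Stmt) (hQ3 : Q3Stmt) (hA : ASMStmt)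
    (n : ℕ) (hn : 0 < n) (𝒜 : Type) [CStarAlgebra 𝒜] [PartialOrder 𝒜] [StarOrderedRing 𝒜]
    (M : Model h n 𝒜)
    (s : ℝ) (hs : 0 ≤ s) (hmd : mdim h < ENNReal.ofReal (2 * s)) (a b : 𝒜)
    (ha : 0 ≤ a) (hb : 0 ≤ b)
    (hab : ∀ Λ : C(X, ℂ) →ₗ[ℂ] ℂ, IsInvState h Λ → dLam M Λ a + s < dLam M Λ b) :
    CuntzLE a b := by
  intro ε hε
  set c : ℝ := max ‖a‖ ‖b‖ + 1 with hc
  have hc0 : 0 < c := by positivity
  have hca : ‖a‖ ≤ c := by rw [hc]; linarith [le_max_left ‖a‖ ‖b‖]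
  have hcb : ‖b‖ ≤ c := by rw [hc]; linarith [le_max_right ‖a‖ ‖b‖]
  set κ : ℝ := ε / (32 * c) with hκ
  have hκ0 : 0 < κ := by positivity
  obtain ⟨m, N₀, ν, hm, hν, hν1, hav⟩ := hQ3 X h n 𝒜 M a b s ha hb hs hab c hc0 hca hcb
    (κ / 2) (by positivity)
  have hfun : (fun t : ℝ => clamp (t / (κ / 2))) = fun t => clamp (2 * t / κ) := by
    funext t; congr 1; field_simp
  rw [hfun] at hav
  have ha' : 0 ≤ (c⁻¹ : ℝ) • a := smul_nonneg (by positivity) ha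
  have hb' : 0 ≤ (c⁻¹ : ℝ) • b := smul_nonneg (by positivity) hb
  have hna : ‖(c⁻¹ : ℝ) • a‖ ≤ 1 := by
    rw [norm_smul, Real.norm_of_nonneg (by positivity)]
    rw [inv_mul_le_iff₀ hc0]; linarith
  have hnb : ‖(c⁻¹ : ℝ) • b‖ ≤ 1 := by
    rw [norm_smul, Real.norm_of_nonneg (by positivity)]
    rw [inv_mul_le_iff₀ hc0]; linarith
  obtain ⟨t, ht⟩ := hA X h hM n 𝒜 M hn _ _ ha' hna hb' hnb s ν κ m N₀ hs
    hν hν1 hκ0 hm hmd hav
  have ht2 : a ≤ star t * b * t + (16 * κ * c) • (1 : 𝒜) := by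
    have h1 := smul_le_smul_of_nonneg_left ht hc0.le
    rw [smul_smul, mul_inv_cancel₀ hc0.ne', one_smul, smul_add, smul_smul] at h1
    refine h1.trans (le_of_eq ?_)
    congr 1
    · rw [mul_smul_comm, smul_mul_assoc, smul_smul, mul_inv_cancel₀ hc0.ne', one_smul]
    · congr 1; ring
  obtain ⟨w, hw⟩ := hQ1 𝒜 a b t (16 * κ * c) ha hb (by positivity) ht2
  refine ⟨w, lt_of_le_of_lt hw ?_⟩
  rw [hκ]
  have : 16 * (ε / (32 * c)) * c = ε / 2 := by field_simp; ring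
  rw [this]; linarith

theorem mem_rc_of {X : Type} [TopologicalSpace X] [CompactSpace X] [T2Space X] [Nonempty X]
    (h : X ≃ₜ X) (hM : Marker h) (hR2 : R2Stmt) (hMB : MBStmt) (hQ1 : Q1Stmt) (hQ2 : Q2Stmt)
    (hQ3 : Q3Stmt) (hA : ASMStmt)
    (s : ℝ≥0) (hs : mdim h / 2 < (s : ℝ≥0∞)) (n : ℕ) (a b : Mat (Crossed h) n)
    (ha : 0 ≤ a) (hb : 0 ≤ b)
    (hab : ∀ τ : QuasiTrace (Crossed h), dimFn τ a + (s : ℝ) < dimFn τ b) : CuntzLE a b := by
  have hmd : mdim h < ENNReal.ofReal (2 * (s : ℝ)) := by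
    have h2 : mdim h < (s : ℝ≥0∞) * 2 := by
      rcases eq_or_ne (mdim h) ⊤ with ht | ht
      · rw [ht, ENNReal.top_div_of_ne_top (by norm_num)] at hs
        exact absurd hs (not_lt.mpr le_top)
      · exact (ENNReal.div_lt_iff (Or.inl (by norm_num)) (Or.inl (by norm_num))).1 hs
    have h3 : ENNReal.ofReal (2 * (s : ℝ)) = (s : ℝ≥0∞) * 2 := by
      rw [ENNReal.ofReal_mul (by norm_num), ENNReal.ofReal_coe_nnreal, mul_comm]
      norm_num
    rw [h3]; exact h2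
  obtain ⟨M, hMe⟩ := hR2 X h n
  rcases Nat.eq_zero_or_pos n with hn | hn
  · subst hn
    intro ε hε
    refine ⟨0, ?_⟩
    have : (0 : Mat (Crossed h) 0) * b * star 0 - a = 0 := by
      ext i; exact i.elim0
    rw [this, norm_zero]; exact hε
  refine model_comparison h hM hQ1 hQ3 hA n hn (Mat (Crossed h) n) M s s.2 hmd a b ha hb ?_
  intro Λ hΛ
  obtain ⟨τ, hτ⟩ := hQ2 X h Λ hΛ
  have key : ∀ T : Mat (Crossed h) n, τ.toFun n T = Λ (trC M T) := by
    intro T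
    refine hτ n T (trC M T) (fun x => ?_)
    have hcont : Continuous fun x => ∑ e : Fin n, entry (M.fib x T) (0, e) (0, e) :=
      continuous_finsetSum _ (fun e _ =>
        (hMB X h n (Mat (Crossed h) n) M).2.2.2.1 T (0, e) (0, e))
    have : trC M T x = ∑ e : Fin n, entry (M.fib x T) (0, e) (0, e) := by
      unfold trC
      rw [dif_pos hcont]
      rfl
    rw [this]
    exact Finset.sum_congr rfl (fun e _ => hMe T x (0, e) (0, e))
  have hd : ∀ T : Mat (Crossed h) n, dimFn τ T = dLam M Λ T := by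
    intro T
    unfold dimFn dLam
    congr 1
    funext k
    rw [key]
  rw [← hd, ← hd]
  exact hab τ

theorem main_of (hMK : MKStmt) (hR2 : R2Stmt) (hMB : MBStmt) (hQ1 : Q1Stmt) (hQ2 : Q2Stmt)
    (hQ3 : Q3Stmt) (hA : ASMStmt) : MainStmt := by
  intro X _ _ _ h Y _ _ _ _ k g hk hg hgs hgh
  have hM : Marker h := hMK X h Y k g hk hg hgh
  have hXne : Nonempty X := by
    obtain ⟨y⟩ : Nonempty Y := inferInstance
    obtain ⟨x, _⟩ := hgs y
    exact ⟨x⟩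
  refine le_of_forall_gt_imp_ge_of_dense ?_
  intro r hr
  rcases eq_or_ne r ⊤ with rfl | hr'
  · exact le_top
  lift r to ℝ≥0 using hr'
  exact sInf_le ⟨r, rfl, fun n a b ha hb hab =>
    mem_rc_of h hM hR2 hMB hQ1 hQ2 hQ3 hA r hr n a b ha hb hab⟩

end Pool.Agent.H27.RC
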