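import Mathlib
import Pool.Agent.H27.RC.Defs

/-!
The crossed product `C*(ℤ, X, h)`, in the form in which it is used in the final statement.
-/

open scoped ENNReal NNReal
open Filter Topology

noncomputable section

namespace Pool.Agent.H27.RC.Pub

/-! ## The C*-algebra generated by a set of elements of a C*-algebra -/

section generated

variable (B : Type) [CStarAlgebra B] (G : Set B)

/-- The unital C*-subalgebra of `B` generated by the subset `G`. -/
def Gen : Type := (StarAlgebra.adjoin ℂ G).topologicalClosure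

/-- The C*-algebra structure inherited from `B`. -/
instance genCStar : CStarAlgebra (Gen B G) :=
  StarSubalgebra.cstarAlgebra (StarAlgebra.adjoin ℂ G).topologicalClosure
    (h_closed := StarSubalgebra.isClosed_topologicalClosure _)

end generated

/-! ## The Hilbert space `ℓ²(ℤ × X)` -/

/-- The Hilbert space `ℓ²(ℤ × X)`. -/
def Ell2 (X : Type) : Type := lp (fun _ : ℤ × X => ℂ) 2

instance ell2Norm (X : Type) : NormedAddCommGroup (Ell2 X) :=
  (lp.normedAddCommGroup : NormedAddCommGroup (lp (fun _ : ℤ × X => ℂ) 2))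

instance ell2Inner (X : Type) : InnerProductSpace ℂ (Ell2 X) :=
  (lp.instInnerProductSpace : InnerProductSpace ℂ (lp (fun _ : ℤ × X => ℂ) 2))

instance ell2Complete (X : Type) : CompleteSpace (Ell2 X) :=
  (inferInstance : CompleteSpace (lp (fun _ : ℤ × X => ℂ) 2))

/-- The coordinate `ξ(n, x)` of `ξ ∈ ℓ²(ℤ × X)`. -/
def coord {X : Type} (ξ : Ell2 X) (n : ℤ) (x : X) : ℂ := ξ.1 (n, x)

/-- The bounded operators on `ℓ²(ℤ × X)`. -/
abbrev Bdd (X : Type) : Type := Ell2 X →L[ℂ] Ell2 X

/-! ## The crossed product -/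

section crossed

variable {X : Type} [TopologicalSpace X]

/-- The generators of the crossed product in its regular representation on `ℓ²(ℤ × X)`: the
multiplication operators `(M_f ξ)(n, x) = f(hⁿx) ξ(n, x)`, `f ∈ C(X)`, and the unitary
`(u ξ)(n, x) = ξ(n - 1, x)`, which satisfies `u M_f u* = M_{f ∘ h⁻¹}`. -/
def crossedGen (h : X ≃ₜ X) : Set (Bdd X) :=
  {a | (∃ f : C(X, ℂ), ∀ (ξ : Ell2 X) (n : ℤ) (x : X),
      coord (a ξ) n x = f ((h ^ n) x) * coord ξ n x) ∨
    ∀ (ξ : Ell2 X) (n : ℤ) (x : X), coord (a ξ) n x = coord ξ (n - 1) x}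

/-- The crossed product C*-algebra `C*(ℤ, X, h) = C(X) ⋊ ℤ`, the C*-algebra generated by these
operators (this is the reduced crossed product, which is the full one because `ℤ` is amenable). -/
def CrossedProduct (h : X ≃ₜ X) : Type := Gen (Bdd X) (crossedGen h)

/-- The C*-algebra structure inherited from the bounded operators on `ℓ²(ℤ × X)`. -/
instance crossedCStar (h : X ≃ₜ X) : CStarAlgebra (CrossedProduct h) :=
  genCStar (Bdd X) (crossedGen h)

instance crossedOrder (h : X ≃ₜ X) : PartialOrder (CrossedProduct h) :=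
  CStarAlgebra.spectralOrder (CrossedProduct h)

instance crossedOrdered (h : X ≃ₜ X) : StarOrderedRing (CrossedProduct h) :=
  CStarAlgebra.spectralOrderedRing (CrossedProduct h)

end crossed

end Pool.Agent.H27.RC.Pub
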