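import Mathlib
import Pool.Agent.H27.RC.Pub

/-!
The radius of comparison of `Pub.CrossedProduct h` is that of `Crossed h` (the two C*-algebras are
the same up to unfolding of definitions).
-/

open scoped ENNReal NNReal
open Filter Topology

noncomputable section

namespace Pool.Agent.H27.RC

def ambRc (B : Type) [CStarAlgebra B] (G : Set B) : ℝ≥0∞ :=
  letI : PartialOrder (Pub.Gen B G) := CStarAlgebra.spectralOrder (Pub.Gen B G)
  letI : StarOrderedRing (Pub.Gen B G) := CStarAlgebra.spectralOrderedRing (Pub.Gen B G)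
  rc (Pub.Gen B G)

variable {X : Type} [TopologicalSpace X] (h : X ≃ₜ X)

theorem step1rc : rc (Pub.CrossedProduct h) = ambRc (Pub.Bdd X) (Pub.crossedGen h) := rfl

unseal crossedCStar in
theorem step2rc : rc (Crossed h) = ambRc (L2 X →L[ℂ] L2 X) (crossedGen h) := rfl

theorem step3 : ambRc (Pub.Bdd X) (Pub.crossedGen h) = ambRc (L2 X →L[ℂ] L2 X) (crossedGen h) := rfl

theorem rc_pub : rc (Pub.CrossedProduct h) = rc (Crossed h) :=
  (step1rc h).trans ((step3 h).trans (step2rc h).symm)

end Pool.Agent.H27.RC
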