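import Mathlib
import Pool.Agent.H27.RC.Stmts
import Pool.Agent.H27.RC.AsmAux
import Pool.Agent.H27.RC.Asm
import Pool.Agent.H27.RC.Asm2
import Pool.Agent.H27.RC.Asm3

/-!
Project RC, module WIN (from MB, LA, GEN, SZ, NV, OSC).
-/

open scoped ENNReal NNReal InnerProductSpace ComplexOrder
open Filter Topology

noncomputable section

namespace Pool.Agent.H27.RC

theorem BandLE.mono {X : Type} [TopologicalSpace X] {h : X ≃ₜ X} {n : ℕ} {𝒜 : Type}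
    [CStarAlgebra 𝒜] {M : Model h n 𝒜} {T : 𝒜} {r r' : ℕ} (hT : BandLE M T r) (hr : r ≤ r') :
    BandLE M T r' := by
  obtain ⟨c, hc, hc'⟩ := hT
  refine ⟨fun k x => if |k| ≤ (r : ℤ) then c k x else 0, fun k => ?_, fun x p q => ?_⟩
  · by_cases hk : |k| ≤ (r : ℤ)
    · simp only [hk, if_true]; exact hc k
    · simp only [hk, if_false]; exact continuous_const
  · rw [hc' x p q]
    by_cases h1 : |p.1 - q.1| ≤ (r : ℤ)
    · have h2 : |p.1 - q.1| ≤ (r' : ℤ) := h1.trans (by exact_mod_cast hr)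
      rw [if_pos h1, if_pos h2]
      simp only [h1, if_true]
    · rw [if_neg h1]
      by_cases h2 : |p.1 - q.1| ≤ (r' : ℤ)
      · rw [if_pos h2]
        simp only [h1, if_false]
        rfl
      · rw [if_neg h2]

theorem clamp_nonneg (t : ℝ) : 0 ≤ clamp t := by
  unfold clamp
  exact le_min zero_le_one (le_max_left _ _)

theorem clamp_le_one (t : ℝ) : clamp t ≤ 1 := by
  unfold clamp
  exact min_le_left _ _

theorem clamp_of_one_le {t : ℝ} (ht : 1 ≤ t) : clamp t = 1 := by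
  unfold clamp
  rw [max_eq_right (by linarith), min_eq_left ht]

theorem clamp_le_self {t : ℝ} (ht : 0 ≤ t) : clamp t ≤ t := by
  unfold clamp
  rw [max_eq_right ht]; exact min_le_right _ _

theorem exists_eps {n m : ℕ} {ν : ℝ} (hν : 0 < ν) (hν1 : ν ≤ 1) (hm : 1 ≤ m) :
    ∃ ε : ℝ, 0 < ε ∧ (ε ^ (1 / (m : ℝ))) * n ≤ ν / 8 := by
  have hm' : (0 : ℝ) < m := by exact_mod_cast hm
  refine ⟨(ν / (8 * (n + 1))) ^ (m : ℝ), by positivity, ?_⟩
  rw [← Real.rpow_mul (by positivity), mul_one_div_cancel hm'.ne', Real.rpow_one]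
  rw [div_mul_eq_mul_div, div_le_div_iff₀ (by positivity) (by norm_num)]
  nlinarith [Nat.cast_nonneg (α := ℝ) n]

theorem win_family_norm {X : Type} {ι : Type} [Fintype ι] {E : Type} [NormedAddCommGroup E]
    [InnerProductSpace ℂ E] (W : X → (E →L[ℂ] E)) (pt : ι → X) (lam : ι → X → ℝ) (x : X)
    (h0 : ∀ i, 0 ≤ lam i x) (h1 : ∑ i, lam i x = 1) (η : ℝ)
    (hosc : ∀ i, lam i x ≠ 0 → ‖W (pt i) - W x‖ ≤ η) :
    ‖∑ i, lam i x • W (pt i) - W x‖ ≤ η := by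
  have e1 : ∑ i, lam i x • W (pt i) - W x = ∑ i, lam i x • (W (pt i) - W x) := by
    have : W x = ∑ i, lam i x • W x := by
      ext v
      rw [sum_apply]
      simp only [real_smul_apply']
      rw [← Finset.sum_smul]
      have : ∑ i, (lam i x : ℂ) = 1 := by exact_mod_cast h1
      rw [this, one_smul]
    conv_lhs => rw [this]
    rw [← Finset.sum_sub_distrib]
    refine Finset.sum_congr rfl (fun i _ => ?_)
    ext v
    simp only [sub_apply, real_smul_apply', smul_sub]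
  rw [e1]
  calc ‖∑ i, lam i x • (W (pt i) - W x)‖ ≤ ∑ i, ‖lam i x • (W (pt i) - W x)‖ :=
        norm_sum_le _ _
    _ ≤ ∑ i, lam i x * η := by
        refine Finset.sum_le_sum (fun i _ => ?_)
        rw [rsmul_eq, norm_smul, Complex.norm_real, Real.norm_of_nonneg (h0 i)]
        by_cases hi : lam i x = 0
        · rw [hi]; simp
        · exact mul_le_mul_of_nonneg_left (hosc i hi) (h0 i)
    _ = η := by rw [← Finset.sum_mul, h1, one_mul]

theorem smul_nonneg_clm {E : Type} [NormedAddCommGroup E] [InnerProductSpace ℂ E]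
    [CompleteSpace E] {F : E →L[ℂ] E} (hF : 0 ≤ F) {c : ℝ} (hc : 0 ≤ c) : 0 ≤ c • F := by
  have := smul_le_smul_clm hF hc
  refine le_trans (le_of_eq ?_) this
  ext v; simp

theorem rank_ineq (hLA : LAStmt) {ℓ n m : ℕ} {A B : EE ℓ n →L[ℂ] EE ℓ n} (hA : 0 ≤ A)
    (hB : 0 ≤ B) {κ ε ν r sa sb : ℝ} (hκ : 0 < κ) (hε : 0 < ε) (hm : 1 ≤ m) (hν : 0 < ν)
    (hℓ : 1 ≤ ℓ)
    (hεn : (ε ^ (1 / (m : ℝ))) * n ≤ ν / 8)
    (ha : |trE (cfc (fun t => clamp (2 * t / κ)) A) - sa| ≤ ν / 16 * ℓ)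
    (hb : |trE (cfc (fun t => clamp t ^ (1 / (m : ℝ))) B) - sb| ≤ ν / 16 * ℓ)
    (hab : (r + ν) * ℓ + sa ≤ sb) (d s : ℕ) (hd : (d : ℝ) ≤ 2 * r * ℓ)
    (hs : (s : ℝ) ≤ ν * ℓ / 4) :
    2 * (Module.finrank ℂ (specAbove A (κ / 2)) + s) + d <
      2 * Module.finrank ℂ (specAbove B ε) := by
  have hm' : (0 : ℝ) < 1 / (m : ℝ) := by
    have : (0 : ℝ) < m := by exact_mod_cast hm
    positivity
  have hc1 : Continuous (fun t : ℝ => clamp (2 * t / κ)) :=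
    clamp_continuous.comp (by fun_prop)
  have hc2 : Continuous (fun t : ℝ => clamp t ^ (1 / (m : ℝ))) :=
    clamp_continuous.rpow_const (fun t => Or.inr hm'.le)
  have h1 := ((hLA.1 (Fin ℓ × Fin n) A hA) _ (κ / 2) hc1 (by positivity)).1
    (fun t _ => clamp_nonneg _) (fun t ht => by
      rw [clamp_of_one_le]
      rw [le_div_iff₀ hκ]; linarith)
  have h2 := ((hLA.1 (Fin ℓ × Fin n) B hB) _ ε hc2 hε).2 (ε ^ (1 / (m : ℝ))) (by positivity)
    (fun t _ => Real.rpow_le_one (clamp_nonneg _) (clamp_le_one _) hm'.le)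
    (fun t ht ht' => Real.rpow_le_rpow (clamp_nonneg _) ((clamp_le_self ht).trans ht'.le) hm'.le)
  have hcard : (Fintype.card (Fin ℓ × Fin n) : ℝ) = ℓ * n := by
    rw [Fintype.card_prod, Fintype.card_fin, Fintype.card_fin]; push_cast; ring
  rw [hcard] at h2
  rw [abs_le] at ha hb
  have hℓ' : (0 : ℝ) < ℓ := by exact_mod_cast hℓ
  have h3 : ε ^ (1 / (m : ℝ)) * (ℓ * n) ≤ ν / 8 * ℓ := by
    have := mul_le_mul_of_nonneg_right hεn hℓ'.le
    nlinarith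
  have hνℓ : 0 < ν * ℓ := by positivity
  have key : (2 * ((Module.finrank ℂ (specAbove A (κ / 2)) : ℝ) + s) + d : ℝ) <
      2 * (Module.finrank ℂ (specAbove B ε) : ℝ) := by
    nlinarith [ha.1, ha.2, hb.1, hb.2]
  exact_mod_cast key

theorem winModule (hMB : MBStmt) (hLA : LAStmt) (hGEN : GENStmt) (hSZ : SZStmt) (hNV : NVStmt)
    (hOSC : OSCStmt) : WINStmt := by
  intro X _ _ _ h n 𝒜 _ _ _ M a b ha ha1 hb hb1 r ν κ m N₀ hr hν hν1 hκ hm hmd hav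
  have hm' : (0 : ℝ) < 1 / (m : ℝ) := by
    have : (0 : ℝ) < m := by exact_mod_cast hm
    positivity
  have hc1 : Continuous (fun t : ℝ => clamp (2 * t / κ)) :=
    clamp_continuous.comp (by fun_prop)
  have hc2 : Continuous (fun t : ℝ => clamp t ^ (1 / (m : ℝ))) :=
    clamp_continuous.rpow_const (fun t => Or.inr hm'.le)
  obtain ⟨ε, hε, hεn⟩ := exists_eps (n := n) hν hν1 hm
  refine ⟨ε, hε, fun η hη => ?_⟩
  obtain ⟨ηa, hηa, Ha⟩ := hSZ X h n 𝒜 M a ha ha1 _ hc1 (ν / 16) (by positivity)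
  obtain ⟨ηb, hηb, Hb⟩ := hSZ X h n 𝒜 M b hb hb1 _ hc2 (ν / 16) (by positivity)
  set η' : ℝ := min η (min ηa ηb) with hη'
  have hη'0 : 0 < η' := lt_min hη (lt_min hηa hηb)
  have e1 : η' ≤ η := min_le_left _ _
  have e2 : η' ≤ ηa := (min_le_right _ _).trans (min_le_left _ _)
  have e3 : η' ≤ ηb := (min_le_right _ _).trans (min_le_right _ _)
  obtain ⟨a₁, ha₁, haa, ra, hra⟩ := (hMB X h n 𝒜 M).2.2.2.2.1 a ha η' hη'0
  obtain ⟨b₁, hb₁, hbb, rb, hrb⟩ := (hMB X h n 𝒜 M).2.2.2.2.1 b hb η' hη'0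
  set M₀ := max ra rb with hM₀
  have hBa : BandLE M a₁ M₀ := hra.mono (le_max_left _ _)
  have hBb : BandLE M b₁ M₀ := hrb.mono (le_max_right _ _)
  refine ⟨a₁, b₁, M₀, ha₁, hb₁, haa.trans e1, hbb.trans e1, hBa, hBb, fun ℓ₀ => ?_⟩
  obtain ⟨ℓa, hℓa⟩ := Ha a₁ ha₁ (haa.trans e2) M₀ hBa
  obtain ⟨ℓb, hℓb⟩ := Hb b₁ hb₁ (hbb.trans e3) M₀ hBb
  obtain ⟨𝒰, h𝒰, hosc⟩ := hOSC X h n 𝒜 M a₁ b₁ M₀ hBa hBb η' hη'0
  obtain ⟨L, hL⟩ := exists_nat_ge (16 / ν)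
  obtain ⟨ℓ, hℓ, d, hd, ι, _, pt, lam, hlc, hl0, hl1, hlcard, hlW⟩ :=
    hNV X h r hr hmd 𝒰 h𝒰 (ℓ₀ + ℓa + ℓb + N₀ + L + 1)
  have hℓ1 : 1 ≤ ℓ := by omega
  have hℓ' : (0 : ℝ) < ℓ := by exact_mod_cast hℓ1
  have hνℓ : 16 ≤ ν * ℓ := by
    have h1 : (L : ℝ) ≤ ℓ := by exact_mod_cast (by omega : L ≤ ℓ)
    have h2 : 16 / ν ≤ ℓ := hL.trans h1
    rw [div_le_iff₀ hν] at h2
    linarith
  set s : ℕ := ⌊ν * ℓ / 4⌋₊ with hs
  have hs1 : (s : ℝ) ≤ ν * ℓ / 4 := Nat.floor_le (by positivity)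
  have hs2 : ν * ℓ / 4 < s + 1 := Nat.lt_floor_add_one _
  have hsℓ : s ≤ ℓ := by
    have : (s : ℝ) ≤ ℓ := by nlinarith
    exact_mod_cast this
  refine ⟨ℓ, by omega, s, hsℓ, by linarith, ?_⟩
  set WA : X → (EE ℓ n →L[ℂ] EE ℓ n) := fun x => Pool.Agent.H27.RC.win ℓ M₀ (M.fib x a₁) with hWA
  set WB : X → (EE ℓ n →L[ℂ] EE ℓ n) := fun x => Pool.Agent.H27.RC.win ℓ M₀ (M.fib x b₁) with hWB
  set A : X → (EE ℓ n →L[ℂ] EE ℓ n) := fun x => ∑ i, lam i x • WA (pt i) with hA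
  set B : X → (EE ℓ n →L[ℂ] EE ℓ n) := fun x => ∑ i, lam i x • WB (pt i) with hB
  have hcA : Continuous A := continuous_finsetSum _ (fun i _ => (hlc i).smul continuous_const)
  have hcB : Continuous B := continuous_finsetSum _ (fun i _ => (hlc i).smul continuous_const)
  have hWA0 : ∀ x, 0 ≤ WA x := fun x => win_nonneg M₀ (map_nonneg _ ha₁)
  have hWB0 : ∀ x, 0 ≤ WB x := fun x => win_nonneg M₀ (map_nonneg _ hb₁)
  have hA0 : ∀ x, 0 ≤ A x := fun x =>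
    Finset.sum_nonneg (fun i _ => smul_nonneg_clm (hWA0 _) (hl0 i x))
  have hB0 : ∀ x, 0 ≤ B x := fun x =>
    Finset.sum_nonneg (fun i _ => smul_nonneg_clm (hWB0 _) (hl0 i x))
  have hAw : ∀ x, ‖A x - WA x‖ ≤ η' := fun x =>
    win_family_norm WA pt lam x (fun i => hl0 i x) (hl1 x) η' (fun i hi => by
      obtain ⟨W, hW, hpt, hx⟩ := hlW i
      exact (hosc ℓ W hW (pt i) hpt x (hx x hi)).1)
  have hBw : ∀ x, ‖B x - WB x‖ ≤ η' := fun x =>
    win_family_norm WB pt lam x (fun i => hl0 i x) (hl1 x) η' (fun i hi => by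
      obtain ⟨W, hW, hpt, hx⟩ := hlW i
      exact (hosc ℓ W hW (pt i) hpt x (hx x hi)).2)
  have hlA : ∀ x, lev ℓ n M₀ * A x = A x := by
    intro x
    rw [hA]
    simp only
    rw [Finset.mul_sum]
    refine Finset.sum_congr rfl (fun i _ => ?_)
    rw [mul_rsmul_clm, hWA]
    simp only
    rw [lev_mul_win]
  have hlB : ∀ x, lev ℓ n M₀ * B x = B x := by
    intro x
    rw [hB]
    simp only
    rw [Finset.mul_sum]
    refine Finset.sum_congr rfl (fun i _ => ?_)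
    rw [mul_rsmul_clm, hWB]
    simp only
    rw [lev_mul_win]
  refine ⟨A, B, hcA, hcB, hA0, hB0, fun x => (hAw x).trans e1, fun x => (hBw x).trans e1,
    hlA, hlB, ?_⟩
  obtain ⟨z₁, z₀, c, hc, hz⟩ := hGEN (Fin ℓ × Fin n) ι s d (fun i => WA (pt i))
    (fun i => WB (pt i)) (fun i => hWA0 _) (fun i => hWB0 _) κ ε hκ hε
    (Set.range (fun x i => lam i x))
    (by
      rintro p ⟨x, rfl⟩
      exact ⟨fun i => hl0 i x, hl1 x, hlcard x⟩)
    (by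
      rintro p ⟨x, rfl⟩
      exact rank_ineq hLA (hA0 x) (hB0 x) hκ hε hm hν hℓ1 hεn
        (hℓa ℓ (by omega) x (A x) (hA0 x) ((hAw x).trans e2))
        (hℓb ℓ (by omega) x (B x) (hB0 x) ((hBw x).trans e3))
        (hav x ℓ (by omega)) d s hd hs1)
  refine ⟨z₁, z₀, c, hc, fun x u hu w => ?_⟩
  exact hz (fun i => lam i x) ⟨x, rfl⟩ u hu w

end Pool.Agent.H27.RC
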